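import Pool.Agent.H23ISO.Bundle
import Pool.Agent.H31DW.Wrap

/-!
# Ideals as subsheaves of the structure sheaf
-/

set_option autoImplicit false

open LaurentPolynomial

universe u

namespace Pool.Agent.H23ISO

open Pool.Agent.DWC

variable {k : Type u} [Field k] {X : Nbhd k}

theorem IC_eq : IC X = X.I := rfl

theorem mem_OX₀ (hX : IsFormal X) {b : X.B} : b ∈ (OX hX).V₀ ↔ b ∈ X.B₀ := by
  change b ∈ Submodule.span X.B₀ {(1 : X.B)} ↔ _
  rw [Submodule.mem_span_singleton]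
  constructor
  · rintro ⟨c, rfl⟩
    rw [smul₀_def, mul_one]
    exact c.2
  · intro hb
    exact ⟨⟨b, hb⟩, by rw [smul₀_def, mul_one]⟩

theorem mem_OX₁ (hX : IsFormal X) {b : X.B} : b ∈ (OX hX).V₁ ↔ b ∈ X.B₁ := by
  change b ∈ Submodule.span X.B₁ {(1 : X.B)} ↔ _
  rw [Submodule.mem_span_singleton]
  constructor
  · rintro ⟨c, rfl⟩
    rw [smul₁_def, mul_one]
    exact c.2
  · intro hb
    exact ⟨⟨b, hb⟩, by rw [smul₁_def, mul_one]⟩

/-- The sections over `U₀` of an ideal. -/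
theorem mem_part₀_OX (hX : IsFormal X) {J : Ideal X.B} {b : X.B} :
    b ∈ sec₀ (OX hX) J ↔ b ∈ part₀ J := by
  rw [mem_part₀]
  change b ∈ J ∧ b ∈ (OX hX).V₀ ↔ _
  rw [mem_OX₀]

/-- The sections over `U₁` of an ideal. -/
theorem mem_part₁_OX (hX : IsFormal X) {J : Ideal X.B} {b : X.B} :
    b ∈ sec₁ (OX hX) J ↔ b ∈ part₁ J := by
  rw [mem_part₁]
  change b ∈ J ∧ b ∈ (OX hX).V₁ ↔ _
  rw [mem_OX₁]

theorem layer_iff (hX : IsFormal X) (P₁ P₂ : Ideal X.B) :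
    Layer (OX hX) P₁ P₂ ↔ LayerI X (-1) P₁ P₂ := by
  constructor
  · rintro ⟨r, θ, h1, h2, h3, h4, h5⟩
    refine ⟨r, θ, h1, h2, h3, fun f => ?_, fun f => ?_⟩
    · rw [← h4 f]
      exact exists_congr fun p => and_congr_left fun _ => (mem_OX₀ hX).symm
    · rw [← h5 f]
      exact exists_congr fun p => and_congr_left fun _ => (mem_OX₁ hX).symm
  · rintro ⟨r, θ, h1, h2, h3, h4, h5⟩
    refine ⟨r, θ, h1, h2, h3, fun f => ?_, fun f => ?_⟩
    · rw [← h4 f]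
      exact exists_congr fun p => and_congr_left fun _ => mem_OX₀ hX
    · rw [← h5 f]
      exact exists_congr fun p => and_congr_left fun _ => mem_OX₁ hX

/-- `I / J` is an iterated extension of `𝒪_C(-1)`. -/
theorem chain_iff (hX : IsFormal X) (J : Ideal X.B) :
    Chain (OX hX) (IC X) J ↔ DWC.Chain J := by
  constructor
  · rintro ⟨L, P, h0, hL, h⟩
    exact ⟨L, P, h0, hL, fun j hj => ⟨(h j hj).1, (layer_iff hX _ _).1 (h j hj).2⟩⟩
  · rintro ⟨L, P, h0, hL, h⟩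
    exact ⟨L, P, h0, hL, fun j hj => ⟨(h j hj).1, (layer_iff hX _ _).2 (h j hj).2⟩⟩

theorem nonNeg3_iff (J : Ideal X.B) (F₀ : Submodule X.B₀ X.B) (F₁ : Submodule X.B₁ X.B) :
    NonNeg3 (X := X) J F₀ F₁ ↔ DWC.NonNeg J F₀ F₁ := Iff.rfl

theorem nonNeg_iff (hX : IsFormal X) (J : Ideal X.B) :
    NonNeg (OX hX) J ↔ DWC.NonNeg J (part₀ J) (part₁ J) := by
  constructor
  · intro h f hf
    obtain ⟨a, ha, c, hc, δ, hδ, e⟩ := h f hf
    exact ⟨a, (mem_part₀_OX hX).1 ha, c, (mem_part₁_OX hX).1 hc, δ, hδ, e⟩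
  · intro h f hf
    obtain ⟨a, ha, c, hc, δ, hδ, e⟩ := h f hf
    exact ⟨a, (mem_part₀_OX hX).2 ha, c, (mem_part₁_OX hX).2 hc, δ, hδ, e⟩

theorem noHom_iff (hX : IsFormal X) (J : Ideal X.B) (d : ℤ) :
    NoHom (OX hX) J d ↔
      ∀ φ : J →+ k[T;T⁻¹], (∀ (b : X.B) (j : J), φ (b • j) = X.res b * φ j) →
        (∀ j : J, (j : X.B) ∈ X.B₀ → φ j ∈ Reg0 k) →
        (∀ j : J, (j : X.B) ∈ X.B₁ → φ j ∈ RegInf k d) → φ = 0 := by
  constructor
  · intro h φ h1 h2 h3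
    exact h φ h1 (fun g hg => h2 g ((mem_OX₀ hX).1 hg)) (fun g hg => h3 g ((mem_OX₁ hX).1 hg))
  · intro h φ h1 h2 h3
    exact h φ h1 (fun g hg => h2 g ((mem_OX₀ hX).2 hg)) (fun g hg => h3 g ((mem_OX₁ hX).2 hg))

theorem isOpen_iff (hX : IsFormal X) (J : Ideal X.B) :
    IsOpen' (OX hX) J ↔ ∃ n : ℕ, X.I ^ n ≤ J := by
  refine exists_congr fun n => ?_
  have h : (X.I ^ n) • (⊤ : Submodule X.B X.B) = X.I ^ n := by
    rw [smul_eq_mul, Ideal.mul_top]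
  constructor
  · intro hn
    rw [← h]
    exact hn
  · intro hn
    have : (X.I ^ n) • (⊤ : Submodule X.B X.B) ≤ J := by rw [h]; exact hn
    exact this

theorem isOpen_of_chain (hX : IsFormal X) {J : Ideal X.B} (h : Chain (OX hX) (IC X) J) :
    IsOpen' (OX hX) J := (isOpen_iff hX J).2 ((chain_iff hX J).1 h).pow_le

theorem acyclic_iff (hX : IsFormal X) (J : Ideal X.B) :
    Acyclic (OX hX) J ↔ ∀ g ∈ J, ∃ a ∈ part₀ J, ∃ c ∈ part₁ J, g = a + c := by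
  constructor
  · intro h f hf
    obtain ⟨a, ha, c, hc, e⟩ := h f hf
    exact ⟨a, (mem_part₀_OX hX).1 ha, c, (mem_part₁_OX hX).1 hc, e⟩
  · intro h f hf
    obtain ⟨a, ha, c, hc, e⟩ := h f hf
    exact ⟨a, (mem_part₀_OX hX).2 ha, c, (mem_part₁_OX hX).2 hc, e⟩

/-- `H¹(X, 𝒪) = 0` -/
theorem acyclic_top_iff (hX : IsFormal X) :
    Acyclic (OX hX) ⊤ ↔ ∀ b : X.B, ∃ b₀ ∈ X.B₀, ∃ b₁ ∈ X.B₁, b = b₀ + b₁ := by
  constructor
  · intro h b
    obtain ⟨a, ha, c, hc, e⟩ := h b trivial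
    exact ⟨a, (mem_OX₀ hX).1 ha.2, c, (mem_OX₁ hX).1 hc.2, e⟩
  · intro h b _
    obtain ⟨a, ha, c, hc, e⟩ := h b
    exact ⟨a, ⟨trivial, (mem_OX₀ hX).2 ha⟩, c, ⟨trivial, (mem_OX₁ hX).2 hc⟩, e⟩

theorem globGen_iff (hX : IsFormal X) (J : Ideal X.B) :
    GlobGen (OX hX) J ↔ ∃ s : Finset X.B, (∀ h ∈ s, h ∈ part₀ J ∧ h ∈ part₁ J) ∧
      part₀ J = Submodule.span X.B₀ (s : Set X.B) ∧
      part₁ J = Submodule.span X.B₁ (s : Set X.B) := by
  constructor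
  · rintro ⟨s, hs, h0, h1⟩
    have hs' : ∀ h ∈ s, h ∈ part₀ J ∧ h ∈ part₁ J := fun h hh =>
      ⟨(mem_part₀_OX hX).1 (hs h hh).1, (mem_part₁_OX hX).1 (hs h hh).2⟩
    refine ⟨s, hs', le_antisymm ?_ ?_, le_antisymm ?_ ?_⟩
    · exact fun b hb => h0 ((mem_part₀_OX hX).2 hb)
    · exact Submodule.span_le.2 fun b hb => (hs' b hb).1
    · exact fun b hb => h1 ((mem_part₁_OX hX).2 hb)
    · exact Submodule.span_le.2 fun b hb => (hs' b hb).2
  · rintro ⟨s, hs, h0, h1⟩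
    refine ⟨s, fun h hh => ⟨(mem_part₀_OX hX).2 (hs h hh).1, (mem_part₁_OX hX).2 (hs h hh).2⟩,
      fun b hb => ?_, fun b hb => ?_⟩
    · have h2 := (mem_part₀_OX hX).1 hb
      rw [h0] at h2
      exact h2
    · have h2 := (mem_part₁_OX hX).1 hb
      rw [h1] at h2
      exact h2

theorem exists_res_eq_br (f : k[T;T⁻¹]) :
    ∃ a ∈ X.B₀, ∃ c ∈ X.B₁, X.res (a + X.w * c) = f := by
  induction f using LaurentPolynomial.induction_on' with
  | add p q hp hq =>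
    obtain ⟨a, ha, c, hc, h⟩ := hp
    obtain ⟨a', ha', c', hc', h'⟩ := hq
    refine ⟨a + a', X.B₀.add_mem ha ha', c + c', X.B₁.add_mem hc hc', ?_⟩
    rw [← h, ← h', ← map_add]
    congr 1
    ring
  | C_mul_T n a =>
    obtain ⟨m, rfl | rfl⟩ := n.eq_nat_or_neg
    · refine ⟨algebraMap k X.B a * (X.x : X.B) ^ m,
        X.B₀.mul_mem (X.B₀.algebraMap_mem a) (X.B₀.pow_mem X.x_mem m), 0, X.B₁.zero_mem, ?_⟩
      rw [mul_zero, add_zero, map_mul, res_x_pow, AlgHom.commutes]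
      rfl
    · cases m with
      | zero =>
        refine ⟨algebraMap k X.B a, X.B₀.algebraMap_mem a, 0, X.B₁.zero_mem, ?_⟩
        rw [mul_zero, add_zero, AlgHom.commutes]
        simp [LaurentPolynomial.algebraMap_apply]
      | succ m =>
        refine ⟨0, X.B₀.zero_mem, algebraMap k X.B a * (X.w : X.B) ^ m,
          X.B₁.mul_mem (X.B₁.algebraMap_mem a) (X.B₁.pow_mem X.w_mem m), ?_⟩
        rw [zero_add, mul_left_comm, ← pow_succ', map_mul, res_w_pow, AlgHom.commutes]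
        rfl

theorem exists_dec_br (g : X.B) :
    ∃ a ∈ X.B₀, ∃ c ∈ X.B₁, ∃ δ ∈ IC X, g = a + (X.w : X.B) • c + δ := by
  obtain ⟨a, ha, c, hc, h⟩ := exists_res_eq_br (X := X) (X.res g)
  refine ⟨a, ha, c, hc, g - (a + X.w * c), ?_, ?_⟩
  · rw [mem_IC, map_sub, h, sub_self]
  · rw [smul_eq_mul]
    ring

/-- The structure sheaf is nonnegative. -/
theorem nonNeg_OX_top (hX : IsFormal X) : NonNeg (OX hX) ⊤ := by
  intro g _
  obtain ⟨a, ha, c, hc, δ, hδ, h⟩ := exists_dec_br (X := X) g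
  refine ⟨a, ⟨trivial, (mem_OX₀ hX).2 ha⟩, c, ⟨trivial, (mem_OX₁ hX).2 hc⟩, δ, ?_, h⟩
  have h2 : IC X • (⊤ : Submodule X.B X.B) = IC X := by
    rw [smul_eq_mul, Ideal.mul_top]
  change δ ∈ IC X • (⊤ : Submodule X.B X.B)
  rw [h2]
  exact hδ

end Pool.Agent.H23ISO
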