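import Pool.Agent.H23ISO.Bundle

/-!
# The universal extension of `𝒪^v` by `𝒪(-1)`
-/

set_option autoImplicit false

open LaurentPolynomial

universe u

namespace Pool.Agent.H23ISO

open Pool.Agent.DWC

variable {k : Type u} [Field k] {X : Nbhd k}

namespace ExistsBundle

variable {R : Type u} [CommRing R] {v : ℕ}

/-- the change of frames `(y₀, y) ↦ (w y₀ + ∑ cⱼ yⱼ, y)` -/
def frame (w : Rˣ) (c : Fin v → R) : (Fin (v + 1) → R) ≃ₗ[R] (Fin (v + 1) → R) where
  toFun y := Fin.cons ((w : R) * y 0 + ∑ j, c j * y j.succ) fun j => y j.succ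
  map_add' y z := by
    funext i
    refine Fin.cases ?_ (fun j => ?_) i
    · simp only [Fin.cons_zero, Pi.add_apply, mul_add, Finset.sum_add_distrib]
      ring
    · simp only [Fin.cons_succ, Pi.add_apply]
  map_smul' b y := by
    funext i
    refine Fin.cases ?_ (fun j => ?_) i
    · simp only [Fin.cons_zero, Pi.smul_apply, smul_eq_mul, RingHom.id_apply, mul_add,
        Finset.mul_sum]
      congr 1
      · ring
      · exact Finset.sum_congr rfl fun j _ => by ring
    · simp only [Fin.cons_succ, Pi.smul_apply, RingHom.id_apply]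
  invFun z := Fin.cons (((w⁻¹ : Rˣ) : R) * (z 0 - ∑ j, c j * z j.succ)) fun j => z j.succ
  left_inv y := by
    funext i
    refine Fin.cases ?_ (fun j => ?_) i
    · simp only [Fin.cons_zero, Fin.cons_succ, add_sub_cancel_right]
      rw [Units.inv_mul_cancel_left]
    · simp only [Fin.cons_succ]
  right_inv z := by
    funext i
    refine Fin.cases ?_ (fun j => ?_) i
    · simp only [Fin.cons_zero, Fin.cons_succ]
      rw [Units.mul_inv_cancel_left, sub_add_cancel]
    · simp only [Fin.cons_succ]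

theorem frame_zero (w : Rˣ) (c : Fin v → R) (y : Fin (v + 1) → R) :
    frame w c y 0 = (w : R) * y 0 + ∑ j, c j * y j.succ := rfl

theorem frame_succ (w : Rˣ) (c : Fin v → R) (y : Fin (v + 1) → R) (j : Fin v) :
    frame w c y j.succ = y j.succ := rfl

/-- the second frame -/
noncomputable def bas (w : Rˣ) (c : Fin v → R) : Module.Basis (Fin (v + 1)) R (Fin (v + 1) → R) :=
  (Pi.basisFun R (Fin (v + 1))).map (frame w c)

theorem bas_apply (w : Rˣ) (c : Fin v → R) (i : Fin (v + 1)) :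
    bas w c i = frame w c (Pi.single i 1) := by
  rw [bas, Module.Basis.map_apply, Pi.basisFun_apply]

theorem det_bas (w : Rˣ) (c : Fin v → R) :
    (Pi.basisFun R (Fin (v + 1))).det (bas w c) = (w : R) := by
  rw [Module.Basis.det_apply]
  have h : ((Pi.basisFun R (Fin (v + 1))).toMatrix (bas w c)).BlockTriangular id := by
    intro i j hij
    rw [Module.Basis.toMatrix_apply, Pi.basisFun_repr, bas_apply]
    have hij : j < i := hij
    obtain ⟨i', rfl⟩ := Fin.exists_succ_eq_of_ne_zero (Fin.pos_iff_ne_zero.1 ((Fin.zero_le j).trans_lt hij))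
    rw [frame_succ, Pi.single_eq_of_ne hij.ne']
  rw [Matrix.det_of_isUpperTriangular h, Fin.prod_univ_succ]
  have h0 : (Pi.basisFun R (Fin (v + 1))).toMatrix (bas w c) 0 0 = (w : R) := by
    rw [Module.Basis.toMatrix_apply, Pi.basisFun_repr, bas_apply, frame_zero, Pi.single_eq_same,
      mul_one, Finset.sum_eq_zero, add_zero]
    intro j _
    rw [Pi.single_eq_of_ne (Fin.succ_ne_zero j), mul_zero]
  rw [h0, Finset.prod_eq_one, mul_one]
  intro j _
  rw [Module.Basis.toMatrix_apply, Pi.basisFun_repr, bas_apply, frame_succ, Pi.single_eq_same]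

theorem mem_of_mem_span_one {A : Subalgebra k X.B} {p : X.B}
    (h : p ∈ Submodule.span A ({(1 : X.B)} : Set X.B)) : p ∈ A := by
  obtain ⟨p', rfl⟩ := Submodule.mem_span_singleton.1 h
  rw [Subalgebra.smul_def, smul_eq_mul, mul_one]
  exact p'.2

end ExistsBundle

open ExistsBundle in
/-- ISO-V, the universal extension of `𝒪^v` by `𝒪(-1)` -/
theorem exists_bundle (hX : IsFormal X) (h1 : Acyclic (OX hX) ⊤) {v : ℕ} (c : Fin v → X.B)
    (hc : ∀ b : X.B, ∃ r : Fin v → X.B, ∃ b₀ ∈ X.B₀, ∃ b₁ ∈ X.B₁,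
      (∀ i, r i ∈ X.B₀ ∧ r i ∈ X.B₁) ∧ b = b₀ + X.w * b₁ + ∑ i, r i * c i) :
    ∃ e a : Module.Basis (Fin (v + 1)) X.B (Fin (v + 1) → X.B), e.det a = X.w ∧
      Acyclic (FSh.ofBases hX e a) ⊤ := by
  have hsplit : ∀ b : X.B, ∃ p ∈ X.B₀, ∃ q ∈ X.B₁, b = p + q := by
    intro b
    obtain ⟨p, hp, q, hq, h⟩ := h1 b trivial
    exact ⟨p, mem_of_mem_span_one hp.2, q, mem_of_mem_span_one hq.2, h⟩
  refine ⟨Pi.basisFun X.B (Fin (v + 1)), bas X.w c, det_bas X.w c, ?_⟩
  intro g _
  change Fin (v + 1) → X.B at g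
  choose p hp q hq hpq using fun j : Fin v => hsplit (g j.succ)
  obtain ⟨r, b₀, hb₀, b₁, hb₁, hr, hb⟩ := hc (g 0 - ∑ j, c j * q j)
  let y₀ : Fin (v + 1) → X.B := Fin.cons b₀ fun j => p j - r j
  let y₁ : Fin (v + 1) → X.B := Fin.cons b₁ fun j => q j + r j
  have hy₀ : ∀ i, y₀ i ∈ X.B₀ := by
    intro i
    refine Fin.cases ?_ (fun j => ?_) i
    · exact hb₀
    · exact X.B₀.sub_mem (hp j) (hr j).1
  have hy₁ : ∀ i, y₁ i ∈ X.B₁ := by
    intro i
    refine Fin.cases ?_ (fun j => ?_) i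
    · exact hb₁
    · exact X.B₁.add_mem (hq j) (hr j).2
  have hdec : ∀ y : Fin (v + 1) → X.B, y = ∑ i, y i • (Pi.single i 1 : Fin (v + 1) → X.B) := by
    intro y
    funext i
    rw [Finset.sum_apply, Finset.sum_eq_single i]
    · simp
    · intro j _ hj
      simp [Pi.single_eq_of_ne (Ne.symm hj)]
    · intro h
      exact absurd (Finset.mem_univ i) h
  refine ⟨y₀, ⟨trivial, ?_⟩, frame X.w c y₁, ⟨trivial, ?_⟩, ?_⟩
  · change y₀ ∈ Submodule.span X.B₀ (Set.range (Pi.basisFun X.B (Fin (v + 1))))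
    rw [hdec y₀]
    refine Submodule.sum_mem _ fun i _ => ?_
    have h := Submodule.smul_mem (Submodule.span X.B₀ (Set.range (Pi.basisFun X.B (Fin (v + 1)))))
      (⟨y₀ i, hy₀ i⟩ : X.B₀) (Submodule.subset_span ⟨i, rfl⟩)
    rw [smul_def₀, Pi.basisFun_apply] at h
    exact h
  · change frame X.w c y₁ ∈ Submodule.span X.B₁ (Set.range (bas X.w c))
    rw [hdec y₁, map_sum]
    refine Submodule.sum_mem _ fun i _ => ?_
    have h := Submodule.smul_mem (Submodule.span X.B₁ (Set.range (bas X.w c)))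
      (⟨y₁ i, hy₁ i⟩ : X.B₁) (Submodule.subset_span ⟨i, rfl⟩)
    rw [smul_def₁, bas_apply] at h
    rw [map_smul]
    exact h
  · change g = y₀ + frame X.w c y₁
    funext i
    refine Fin.cases ?_ (fun j => ?_) i
    · rw [Pi.add_apply, frame_zero]
      change g 0 = b₀ + (X.w * b₁ + ∑ j, c j * (q j + r j))
      have h2 : ∑ j, c j * (q j + r j) = ∑ j, c j * q j + ∑ j, r j * c j := by
        rw [← Finset.sum_add_distrib]
        exact Finset.sum_congr rfl fun j _ => by ring
      rw [h2]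
      linear_combination hb
    · rw [Pi.add_apply, frame_succ]
      change g j.succ = p j - r j + (q j + r j)
      rw [hpq j]
      ring

end Pool.Agent.H23ISO
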