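import Pool.Agent.H23ISO.Bundle

/-!
# `H¹(X, 𝒪(-1))` is a finitely generated module over the ring of global functions
-/

set_option autoImplicit false

open LaurentPolynomial

universe u

namespace Pool.Agent.H23ISO.M

open Pool.Agent.DWC Pool.Agent.H23ISO

variable {k : Type u} [Field k] {X : Nbhd k}

theorem T_mem_Reg0 {i : ℤ} (a : k) (hi : 0 ≤ i) : (C a * T i : k[T;T⁻¹]) ∈ Reg0 k := by
  intro j hj
  rw [← single_eq_C_mul_T]
  rw [AddMonoidAlgebra.coeff_single, Finsupp.single_apply, if_neg (by omega)]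

theorem T_mem_RegInf {i d : ℤ} (a : k) (hi : i ≤ d) : (C a * T i : k[T;T⁻¹]) ∈ RegInf k d := by
  intro j hj
  rw [← single_eq_C_mul_T]
  rw [AddMonoidAlgebra.coeff_single, Finsupp.single_apply, if_neg (by omega)]

theorem add_mem_Reg0 {f g : k[T;T⁻¹]} (hf : f ∈ Reg0 k) (hg : g ∈ Reg0 k) : f + g ∈ Reg0 k := by
  intro j hj
  simp [hf j hj, hg j hj]

theorem add_mem_RegInf {f g : k[T;T⁻¹]} {d : ℤ} (hf : f ∈ RegInf k d) (hg : g ∈ RegInf k d) :
    f + g ∈ RegInf k d := by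
  intro j hj
  simp [hf j hj, hg j hj]

theorem zero_mem_Reg0 : (0 : k[T;T⁻¹]) ∈ Reg0 k := by
  intro j hj
  simp

theorem zero_mem_RegInf {d : ℤ} : (0 : k[T;T⁻¹]) ∈ RegInf k d := by
  intro j hj
  simp

theorem split_res (X : Nbhd k) (f : k[T;T⁻¹]) :
    ∃ b₀ ∈ X.B₀, ∃ b₁ ∈ X.B₁, X.res (b₀ + X.w * b₁) = f := by
  induction f using LaurentPolynomial.induction_on' with
  | add p q hp hq =>
    obtain ⟨a, ha, c, hc, h⟩ := hp
    obtain ⟨a', ha', c', hc', h'⟩ := hq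
    refine ⟨a + a', add_mem ha ha', c + c', add_mem hc hc', ?_⟩
    rw [← h, ← h', ← map_add]
    congr 1
    ring
  | C_mul_T n a =>
    rcases le_or_gt 0 n with hn | hn
    · lift n to ℕ using hn
      refine ⟨algebraMap k X.B a * (X.x : X.B) ^ n, mul_mem (Subalgebra.algebraMap_mem _ _)
        (pow_mem X.x_mem _), 0, zero_mem _, ?_⟩
      rw [mul_zero, add_zero, map_mul, map_pow, X.res_x, T_pow, mul_one, AlgHom.commutes]
      rfl
    · obtain ⟨m, rfl⟩ : ∃ m : ℕ, n = -(m : ℤ) - 1 := ⟨(-n - 1).toNat, by omega⟩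
      refine ⟨0, zero_mem _, algebraMap k X.B a * (X.w : X.B) ^ m,
        mul_mem (Subalgebra.algebraMap_mem _ _) (pow_mem X.w_mem _), ?_⟩
      rw [zero_add, show (X.w : X.B) * (algebraMap k X.B a * (X.w : X.B) ^ m)
        = algebraMap k X.B a * (X.w : X.B) ^ (m + 1) by ring, map_mul, map_pow, X.res_w, T_pow,
        AlgHom.commutes, show ((m + 1 : ℕ) : ℤ) * -1 = -(m : ℤ) - 1 by push_cast; ring]
      rfl

theorem split_layer (f : k[T;T⁻¹]) :
    ∃ g ∈ Reg0 k, ∃ h ∈ RegInf k (-1), ∃ l : k, f = g + T (-1) * h + C l * T (-1) := by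
  induction f using LaurentPolynomial.induction_on' with
  | add p q hp hq =>
    obtain ⟨a, ha, c, hc, l, h⟩ := hp
    obtain ⟨a', ha', c', hc', l', h'⟩ := hq
    refine ⟨a + a', add_mem_Reg0 ha ha', c + c', add_mem_RegInf hc hc', l + l', ?_⟩
    rw [h, h', map_add]
    ring
  | C_mul_T n a =>
    rcases le_or_gt 0 n with hn | hn
    · exact ⟨_, T_mem_Reg0 a hn, 0, zero_mem_RegInf, 0, by simp⟩
    · rcases eq_or_ne n (-1) with rfl | hn1
      · exact ⟨0, zero_mem_Reg0, 0, zero_mem_RegInf, a, by simp⟩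
      · refine ⟨0, zero_mem_Reg0, C a * T (n + 1), T_mem_RegInf a (by omega), 0, ?_⟩
        rw [map_zero, zero_mul, add_zero, zero_add, mul_left_comm, ← T_add]
        congr 2
        ring

/-- One layer: `P₂ / P₁` is generated over `k` by its sections over `U₀`, by the sections of its
twist by `𝒪(-1)` over `U₁` and by finitely many elements. -/
theorem layer_gen (E : FSh X) {P₁ P₂ : Submodule X.B E.V} (h : Layer E P₁ P₂) :
    ∃ (r : ℕ) (u : Fin r → E.V), ∀ p ∈ P₂, ∃ a ∈ E.V₀, ∃ c ∈ E.V₁, ∃ l : Fin r → k,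
      p - (a + (X.w : X.B) • c + ∑ i, algebraMap k X.B (l i) • u i) ∈ P₁ := by
  obtain ⟨r, θ, hθ, hsurj, hker, h0, h1⟩ := h
  choose u hu using fun i : Fin r => hsurj (Pi.single i (T (-1) : k[T;T⁻¹]))
  refine ⟨r, fun i => (u i : E.V), fun p hp => ?_⟩
  choose g hg h hh l hl using fun i : Fin r => split_layer (θ ⟨p, hp⟩ i)
  obtain ⟨a, ha0, ha⟩ := (h0 g).2 hg
  obtain ⟨c, hc1, hc⟩ := (h1 h).2 hh
  refine ⟨a, ha0, c, hc1, l, ?_⟩
  have key : θ (⟨p, hp⟩ - (a + (X.w : X.B) • c + ∑ i, algebraMap k X.B (l i) • u i)) = 0 := by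
    rw [map_sub, map_add, map_add, map_sum, sub_eq_zero]
    funext j
    rw [hl j, Pi.add_apply, Pi.add_apply, Finset.sum_apply, hθ, ha, hc, X.res_w]
    congr 1
    rw [Finset.sum_eq_single j]
    · rw [hθ, hu, Pi.single_eq_same, AlgHom.commutes]
      rfl
    · intro i _ hij
      rw [hθ, hu, Pi.single_eq_of_ne (Ne.symm hij), mul_zero]
    · intro hj
      exact absurd (Finset.mem_univ j) hj
  have := (hker _).1 key
  simpa using this

theorem chain_gen (E : FSh X) {F G : Submodule X.B E.V} (h : Chain E F G) :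
    ∃ (r : ℕ) (u : Fin r → E.V), ∀ p ∈ F, ∃ a ∈ E.V₀, ∃ c ∈ E.V₁, ∃ l : Fin r → k,
      p - (a + (X.w : X.B) • c + ∑ i, algebraMap k X.B (l i) • u i) ∈ G := by
  obtain ⟨L, P, hP0, hPL, hP⟩ := h
  have key : ∀ j ≤ L, ∃ (r : ℕ) (u : Fin r → E.V), ∀ p ∈ P j, ∃ a ∈ E.V₀, ∃ c ∈ E.V₁,
      ∃ l : Fin r → k, p - (a + (X.w : X.B) • c + ∑ i, algebraMap k X.B (l i) • u i) ∈ G := by
    intro j
    induction j with
    | zero =>
      intro _
      refine ⟨0, Fin.elim0, fun p hp => ⟨0, zero_mem _, 0, zero_mem _, Fin.elim0, ?_⟩⟩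
      rw [hP0] at hp
      simpa using hp
    | succ j ih =>
      intro hj
      obtain ⟨r, u, hu⟩ := ih (by omega)
      obtain ⟨r', u', hu'⟩ := layer_gen E (hP j (by omega)).2
      refine ⟨r + r', Fin.append u u', fun p hp => ?_⟩
      obtain ⟨a', ha', c', hc', l', h'⟩ := hu' p hp
      obtain ⟨a, ha, c, hc, l, h⟩ := hu _ h'
      refine ⟨a + a', add_mem ha ha', c + c', add_mem hc hc', Fin.append l l', ?_⟩
      rw [Fin.sum_univ_add]
      simp only [Fin.append_left, Fin.append_right]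
      convert h using 1
      rw [smul_add]
      abel
  have := key L le_rfl
  rwa [hPL] at this

theorem chain_le (E : FSh X) {F G : Submodule X.B E.V} (h : Chain E F G) : G ≤ F := by
  obtain ⟨L, P, hP0, hPL, hP⟩ := h
  have key : ∀ j ≤ L, G ≤ P j := by
    intro j
    induction j with
    | zero =>
      intro _
      rw [hP0]
    | succ j ih =>
      intro hj
      exact (ih (by omega)).trans (hP j (by omega)).1
  have := key L le_rfl
  rwa [hPL] at this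

theorem mem_OX₀ (hX : IsFormal X) {b : X.B} : b ∈ (OX hX).V₀ ↔ b ∈ X.B₀ := by
  change b ∈ Submodule.span X.B₀ {(1 : X.B)} ↔ _
  rw [Submodule.mem_span_singleton]
  constructor
  · rintro ⟨a, rfl⟩
    change (a : X.B) * 1 ∈ X.B₀
    rw [mul_one]
    exact a.2
  · intro hb
    refine ⟨⟨b, hb⟩, ?_⟩
    change b * 1 = b
    rw [mul_one]

theorem mem_OX₁ (hX : IsFormal X) {b : X.B} : b ∈ (OX hX).V₁ ↔ b ∈ X.B₁ := by
  change b ∈ Submodule.span X.B₁ {(1 : X.B)} ↔ _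
  rw [Submodule.mem_span_singleton]
  constructor
  · rintro ⟨a, rfl⟩
    change (a : X.B) * 1 ∈ X.B₁
    rw [mul_one]
    exact a.2
  · intro hb
    refine ⟨⟨b, hb⟩, ?_⟩
    change b * 1 = b
    rw [mul_one]

/-- Everything modulo `J`. -/
theorem fin_mod (hX : IsFormal X) {J : Ideal X.B} (hc : Chain (OX hX) (IC X) J) :
    ∃ (v : ℕ) (c : Fin v → X.B), ∀ b : X.B, ∃ b₀ ∈ X.B₀, ∃ b₁ ∈ X.B₁, ∃ l : Fin v → k,
      b - (b₀ + X.w * b₁ + ∑ i, algebraMap k X.B (l i) * c i) ∈ J := by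
  have h' : ∃ (v : ℕ) (c : Fin v → X.B), ∀ p ∈ IC X, ∃ a ∈ X.B₀, ∃ a' ∈ X.B₁, ∃ l : Fin v → k,
      p - (a + X.w * a' + ∑ i, algebraMap k X.B (l i) * c i) ∈ J := by
    obtain ⟨v, c, h⟩ := chain_gen (OX hX) hc
    refine ⟨v, c, fun p hp => ?_⟩
    obtain ⟨a, ha, a', ha', l, hl⟩ := h p hp
    exact ⟨a, (mem_OX₀ hX).1 ha, a', (mem_OX₁ hX).1 ha', l, hl⟩
  obtain ⟨v, c, h⟩ := h'
  refine ⟨v, c, fun b => ?_⟩
  obtain ⟨b₀, hb₀, b₁, hb₁, hb⟩ := split_res X (X.res b)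
  have hI : b - (b₀ + X.w * b₁) ∈ IC X := by
    rw [mem_IC, map_sub, hb, sub_self]
  obtain ⟨a, ha, a', ha', l, hl⟩ := h _ hI
  refine ⟨b₀ + a, add_mem hb₀ ha, b₁ + a', add_mem hb₁ ha', l, ?_⟩
  convert hl using 1
  ring

/-- `J` is generated by global functions. -/
theorem gen_J (hX : IsFormal X) {J : Ideal X.B} (hJ : NonNeg (OX hX) J)
    (hgg : GlobGen (OX hX) J) (hdec : ∀ f ∈ IC X • J, ∃ a ∈ IC₀ X • sec₀ (OX hX) J,
      ∃ c ∈ IC₁ X • sec₁ (OX hX) J, f = a + c) :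
    ∃ s : Set X.B, (∀ h ∈ s, h ∈ J ∧ h ∈ X.B₀ ∧ h ∈ X.B₁) ∧ J ≤ Ideal.span s := by
  have h1 : ∃ s : Set X.B, (∀ h ∈ s, h ∈ J ∧ h ∈ X.B₀ ∧ h ∈ X.B₁) ∧
      (∀ b ∈ sec₀ (OX hX) J, b ∈ Submodule.span X.B₀ s) ∧
      (∀ b ∈ sec₁ (OX hX) J, b ∈ Submodule.span X.B₁ s) := by
    obtain ⟨s, hs, hs0, hs1⟩ := hgg
    refine ⟨(s : Set (OX hX).V), fun h hh => ?_, fun b hb => hs0 hb, fun b hb => hs1 hb⟩
    have := hs h hh
    exact ⟨this.1.1, (mem_OX₀ hX).1 this.1.2, (mem_OX₁ hX).1 this.2.2⟩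
  obtain ⟨s, hs, hs0, hs1⟩ := h1
  refine ⟨s, hs, fun j hj => ?_⟩
  have e0 : ∀ b ∈ sec₀ (OX hX) J, b ∈ Ideal.span s := by
    intro b hb
    have h2 : Submodule.span X.B₀ s ≤ (Submodule.span X.B s).restrictScalars X.B₀ :=
      Submodule.span_le.2 Submodule.subset_span
    exact h2 (hs0 b hb)
  have e1 : ∀ b ∈ sec₁ (OX hX) J, b ∈ Ideal.span s := by
    intro b hb
    have h2 : Submodule.span X.B₁ s ≤ (Submodule.span X.B s).restrictScalars X.B₁ :=
      Submodule.span_le.2 Submodule.subset_span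
    exact h2 (hs1 b hb)
  have h2 : ∃ a ∈ sec₀ (OX hX) J, ∃ c ∈ sec₁ (OX hX) J, ∃ a' ∈ sec₀ (OX hX) J,
      ∃ c' ∈ sec₁ (OX hX) J, j = a + (X.w : X.B) • c + (a' + c') := by
    obtain ⟨a, ha, c, hc', δ, hδ, hj'⟩ := hJ j hj
    obtain ⟨a', ha', c', hc'', hδ'⟩ := hdec δ hδ
    exact ⟨a, ha, c, hc', a', Submodule.smul_le_right ha', c', Submodule.smul_le_right hc'',
      by rw [hj', hδ']⟩
  obtain ⟨a, ha, c, hc', a', ha', c', hc'', h3⟩ := h2
  rw [h3]
  exact add_mem (add_mem (e0 a ha) (Ideal.mul_mem_left _ (X.w : X.B) (e1 c hc')))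
    (add_mem (e0 a' ha') (e1 c' hc''))

/-- One step of the approximation. -/
def Step (X : Nbhd k) (J : Ideal X.B) {v : ℕ} (c : Fin v → X.B) (m : ℕ) (b : X.B) : Prop :=
  ∃ (a : X.B₀) (a' : X.B₁) (r₀ : Fin v → X.B₀) (r₁ : Fin v → X.B₁),
    a ∈ IC₀ X ^ m ∧ a' ∈ IC₁ X ^ m ∧ (∀ i, r₀ i ∈ IC₀ X ^ m) ∧ (∀ i, r₁ i ∈ IC₁ X ^ m) ∧
      (∀ i, (r₀ i : X.B) = r₁ i) ∧
      b - ((a : X.B) + X.w * (a' : X.B) + ∑ i, (r₀ i : X.B) * c i) ∈ J ^ (m + 1)

theorem Step.add {J : Ideal X.B} {v : ℕ} {c : Fin v → X.B} {m : ℕ} {b b' : X.B}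
    (h : Step X J c m b) (h' : Step X J c m b') : Step X J c m (b + b') := by
  obtain ⟨a, e, r, s, h1, h2, h3, h4, h5, h6⟩ := h
  obtain ⟨a', e', r', s', h1', h2', h3', h4', h5', h6'⟩ := h'
  refine ⟨a + a', e + e', fun i => r i + r' i, fun i => s i + s' i, add_mem h1 h1', add_mem h2 h2',
    fun i => add_mem (h3 i) (h3' i), fun i => add_mem (h4 i) (h4' i), fun i => ?_, ?_⟩
  · change (r i : X.B) + (r' i : X.B) = (s i : X.B) + (s' i : X.B)
    rw [h5, h5']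
  · convert add_mem h6 h6' using 1
    change b + b' - ((a : X.B) + (a' : X.B) + X.w * ((e : X.B) + (e' : X.B))
      + ∑ i, ((r i : X.B) + (r' i : X.B)) * c i) = _
    simp only [add_mul, Finset.sum_add_distrib]
    ring

theorem Step.zero {J : Ideal X.B} {v : ℕ} {c : Fin v → X.B} {m : ℕ} :
    Step X J c m 0 := by
  refine ⟨0, 0, fun _ => 0, fun _ => 0, zero_mem _, zero_mem _, fun _ => zero_mem _,
    fun _ => zero_mem _, fun _ => ?_, ?_⟩
  · simp
  · simp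

theorem Step.mul {J : Ideal X.B} {v : ℕ} {c : Fin v → X.B} {m : ℕ} {b : X.B}
    (h : Step X J c m b) (h₀ : X.B₀) (h₁ : X.B₁) (hI₀ : h₀ ∈ IC₀ X) (hI₁ : h₁ ∈ IC₁ X)
    (he : (h₀ : X.B) = h₁) (hJ : (h₀ : X.B) ∈ J) : Step X J c (m + 1) ((h₀ : X.B) * b) := by
  obtain ⟨a, e, r, s, h1, h2, h3, h4, h5, h6⟩ := h
  refine ⟨h₀ * a, h₁ * e, fun i => h₀ * r i, fun i => h₁ * s i, ?_, ?_, fun i => ?_, fun i => ?_,
    fun i => ?_, ?_⟩
  · rw [pow_succ']
    exact Ideal.mul_mem_mul hI₀ h1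
  · rw [pow_succ']
    exact Ideal.mul_mem_mul hI₁ h2
  · rw [pow_succ']
    exact Ideal.mul_mem_mul hI₀ (h3 i)
  · rw [pow_succ']
    exact Ideal.mul_mem_mul hI₁ (h4 i)
  · change (h₀ : X.B) * (r i : X.B) = (h₁ : X.B) * (s i : X.B)
    rw [h5, he]
  · have := Ideal.mul_mem_mul hJ h6
    rw [← pow_succ'] at this
    convert this using 1
    change (h₀ : X.B) * b - ((h₀ : X.B) * (a : X.B) + X.w * ((h₁ : X.B) * (e : X.B))
      + ∑ i, ((h₀ : X.B) * (r i : X.B)) * c i) = _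
    rw [← he]
    simp only [mul_assoc, ← Finset.mul_sum]
    ring

theorem step_all {J : Ideal X.B} (hJI : J ≤ IC X) {v : ℕ} {c : Fin v → X.B}
    (hc : ∀ b : X.B, ∃ b₀ ∈ X.B₀, ∃ b₁ ∈ X.B₁, ∃ l : Fin v → k,
      b - (b₀ + X.w * b₁ + ∑ i, algebraMap k X.B (l i) * c i) ∈ J)
    {s : Set X.B} (hs : ∀ h ∈ s, h ∈ J ∧ h ∈ X.B₀ ∧ h ∈ X.B₁) (hJs : J ≤ Ideal.span s) (m : ℕ) :
    ∀ b ∈ J ^ m, Step X J c m b := by
  induction m with
  | zero =>
    intro b _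
    obtain ⟨b₀, hb₀, b₁, hb₁, l, h⟩ := hc b
    refine ⟨⟨b₀, hb₀⟩, ⟨b₁, hb₁⟩, fun i => algebraMap k X.B₀ (l i), fun i => algebraMap k X.B₁ (l i),
      by simp, by simp, by simp, by simp, fun i => rfl, ?_⟩
    rw [zero_add, pow_one]
    exact h
  | succ m ih =>
    intro b hb
    rw [pow_succ'] at hb
    refine Submodule.mul_induction_on hb ?_ (fun x y hx hy => hx.add hy)
    intro j hj
    have hj' := hJs hj
    clear hj
    refine Submodule.span_induction (p := fun j _ => ∀ n ∈ J ^ m, Step X J c (m + 1) (j * n))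
      ?_ ?_ ?_ ?_ hj'
    · intro h hh n hn
      obtain ⟨h1, h2, h3⟩ := hs h hh
      exact (ih n hn).mul ⟨h, h2⟩ ⟨h, h3⟩ (hJI h1) (hJI h1) rfl h1
    · intro n _
      rw [zero_mul]
      exact Step.zero
    · intro x y _ _ hx hy n hn
      rw [add_mul]
      exact (hx n hn).add (hy n hn)
    · intro z x _ hx n hn
      rw [smul_eq_mul, mul_comm z x, mul_assoc]
      exact hx _ (Ideal.mul_mem_left _ _ hn)

theorem exists_lim {R : Type u} [CommRing R] (I : Ideal R) [IsAdicComplete I R] (a : ℕ → R)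
    (ha : ∀ m, a m ∈ I ^ m) : ∃ A : R, ∀ M, A - ∑ m ∈ Finset.range M, a m ∈ I ^ M := by
  obtain ⟨L, hL⟩ := IsPrecomplete.prec (I := I) (M := R) inferInstance
    (f := fun M => ∑ m ∈ Finset.range M, a m) (by
      intro m n hmn
      rw [SModEq.sub_mem, smul_eq_mul, Ideal.mul_top, ← neg_sub, neg_mem_iff,
        ← Finset.sum_Ico_eq_sub _ hmn]
      refine sum_mem fun i hi => ?_
      exact Ideal.pow_le_pow_right (Finset.mem_Ico.1 hi).1 (ha i))
  refine ⟨L, fun M => ?_⟩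
  have := hL M
  rw [SModEq.sub_mem, smul_eq_mul, Ideal.mul_top] at this
  rw [← neg_sub, neg_mem_iff]
  exact this

theorem coe_mem_pow₀ {M : ℕ} {a : X.B₀} (ha : a ∈ IC₀ X ^ M) : (a : X.B) ∈ IC X ^ M := by
  have h := Ideal.mem_map_of_mem (algebraMap X.B₀ X.B) ha
  rw [Ideal.map_pow] at h
  exact Ideal.pow_right_mono Ideal.map_comap_le M h

theorem coe_mem_pow₁ {M : ℕ} {a : X.B₁} (ha : a ∈ IC₁ X ^ M) : (a : X.B) ∈ IC X ^ M := by
  have h := Ideal.mem_map_of_mem (algebraMap X.B₁ X.B) ha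
  rw [Ideal.map_pow] at h
  exact Ideal.pow_right_mono Ideal.map_comap_le M h

end Pool.Agent.H23ISO.M

namespace Pool.Agent.H23ISO

open Pool.Agent.DWC M

variable {k : Type u} [Field k] {X : Nbhd k}

/-- ISO-M, `H¹(X, 𝒪(-1))` is a finitely generated module over the ring of global functions; the
hypotheses `hgg` and `hdec` are `acyclic_globGen` and `dec_smul_exact` for `G = J`. -/
theorem exists_c_of (hX : IsFormal X) {J : Ideal X.B} (hc : Chain (OX hX) (IC X) J)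
    (hJ : NonNeg (OX hX) J) (hgg : GlobGen (OX hX) J)
    (hdec : ∀ f ∈ IC X • J, ∃ a ∈ IC₀ X • sec₀ (OX hX) J,
      ∃ c ∈ IC₁ X • sec₁ (OX hX) J, f = a + c) :
    ∃ (v : ℕ) (c : Fin v → X.B), ∀ b : X.B, ∃ r : Fin v → X.B, ∃ b₀ ∈ X.B₀, ∃ b₁ ∈ X.B₁,
      (∀ i, r i ∈ X.B₀ ∧ r i ∈ X.B₁) ∧ b = b₀ + X.w * b₁ + ∑ i, r i * c i := by
  obtain ⟨v, c, hcc⟩ := fin_mod hX hc
  obtain ⟨s, hs, hJs⟩ := gen_J hX hJ hgg hdec
  have hJI : J ≤ IC X := chain_le (OX hX) hc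
  have hstep := step_all hJI hcc hs hJs
  choose! a a' r₀ r₁ ha ha' hr₀ hr₁ hrr hnext using hstep
  have := hX.complete₀
  have := hX.complete₁
  refine ⟨v, c, fun b => ?_⟩
  -- the sequence of remainders
  let nxt : ℕ → X.B → X.B := fun m y =>
    y - ((a m y : X.B) + X.w * (a' m y : X.B) + ∑ i, (r₀ m y i : X.B) * c i)
  let y : ℕ → X.B := fun m => Nat.rec b nxt m
  have hy0 : y 0 = b := rfl
  have hys : ∀ m, y (m + 1) = nxt m (y m) := fun m => rfl
  have hymem : ∀ m, y m ∈ J ^ m := by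
    intro m
    induction m with
    | zero => simp
    | succ m ih => exact hnext m (y m) ih
  obtain ⟨A, hA⟩ := exists_lim (IC₀ X) (fun m => a m (y m)) (fun m => ha m _ (hymem m))
  obtain ⟨A', hA'⟩ := exists_lim (IC₁ X) (fun m => a' m (y m)) (fun m => ha' m _ (hymem m))
  choose R₀ hR₀ using fun i : Fin v =>
    exists_lim (IC₀ X) (fun m => r₀ m (y m) i) (fun m => hr₀ m _ (hymem m) i)
  choose R₁ hR₁ using fun i : Fin v =>
    exists_lim (IC₁ X) (fun m => r₁ m (y m) i) (fun m => hr₁ m _ (hymem m) i)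
  have hR : ∀ i, (R₀ i : X.B) = R₁ i := by
    intro i
    rw [← sub_eq_zero]
    refine hX.sep _ fun M => ?_
    have h1 := coe_mem_pow₀ (hR₀ i M)
    have h2 := coe_mem_pow₁ (hR₁ i M)
    rw [AddSubgroupClass.coe_sub, AddSubmonoidClass.coe_finsetSum] at h1 h2
    have h3 := sub_mem h1 h2
    convert h3 using 1
    rw [Finset.sum_congr rfl fun m _ => hrr m (y m) (hymem m) i]
    ring
  refine ⟨fun i => R₀ i, A, A.2, A', A'.2, fun i => ⟨(R₀ i).2, ?_⟩, ?_⟩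
  · have h := (R₁ i).2
    rw [← hR i] at h
    exact h
  · rw [← sub_eq_zero]
    refine hX.sep _ fun M => ?_
    have hb : b = ∑ m ∈ Finset.range M, ((a m (y m) : X.B) + X.w * (a' m (y m) : X.B)
        + ∑ i, (r₀ m (y m) i : X.B) * c i) + y M := by
      clear hR hR₀ hR₁ hA hA'
      induction M with
      | zero =>
        rw [Finset.range_zero, Finset.sum_empty, zero_add, hy0]
      | succ M ih =>
        rw [Finset.sum_range_succ, hys]
        conv_lhs => rw [ih]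
        simp only [nxt]
        ring
    have h1 := coe_mem_pow₀ (hA M)
    have h2 := coe_mem_pow₁ (hA' M)
    have h3 := fun i => coe_mem_pow₀ (hR₀ i M)
    rw [AddSubgroupClass.coe_sub, AddSubmonoidClass.coe_finsetSum] at h1 h2
    have h4 : y M ∈ IC X ^ M := Ideal.pow_right_mono hJI M (hymem M)
    have h5 : ∑ i, ((R₀ i : X.B) - ∑ m ∈ Finset.range M, (r₀ m (y m) i : X.B)) * c i
        ∈ IC X ^ M := by
      refine sum_mem fun i _ => Ideal.mul_mem_right _ _ ?_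
      have := h3 i
      rw [AddSubgroupClass.coe_sub, AddSubmonoidClass.coe_finsetSum] at this
      exact this
    have h6 := sub_mem (sub_mem (sub_mem h4 h1) (Ideal.mul_mem_left _ (X.w : X.B) h2)) h5
    convert h6 using 1
    have h7 : ∑ i, ((R₀ i : X.B) - ∑ m ∈ Finset.range M, (r₀ m (y m) i : X.B)) * c i
        = ∑ i, (R₀ i : X.B) * c i
          - ∑ m ∈ Finset.range M, ∑ i, (r₀ m (y m) i : X.B) * c i := by
      rw [Finset.sum_comm, ← Finset.sum_sub_distrib]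
      refine Finset.sum_congr rfl fun i _ => ?_
      rw [sub_mul, Finset.sum_mul]
    rw [h7]
    conv_lhs => rw [hb]
    rw [Finset.sum_add_distrib, Finset.sum_add_distrib, ← Finset.mul_sum]
    ring

end Pool.Agent.H23ISO
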