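import Pool.Agent.H23ISO.Ample
import Pool.Agent.H23ISO.ExistsCOf

/-!
# `H¹(X, 𝒪(-1))` is finitely generated over the ring of global functions
-/

set_option autoImplicit false

open LaurentPolynomial

universe u

namespace Pool.Agent.H23ISO

open Pool.Agent.DWC

variable {k : Type u} [Field k] {X : Nbhd k}

/-- `H¹(X, 𝒪(-1))` is a finitely generated module over the ring of global functions -/
theorem exists_c (hX : IsFormal X) {J : Ideal X.B} (hc : Chain (OX hX) (IC X) J)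
    (hJo : IsOpen' (OX hX) J) (hJ : NonNeg (OX hX) J) :
    ∃ (v : ℕ) (c : Fin v → X.B), ∀ b : X.B, ∃ r : Fin v → X.B, ∃ b₀ ∈ X.B₀, ∃ b₁ ∈ X.B₁,
      (∀ i, r i ∈ X.B₀ ∧ r i ∈ X.B₁) ∧ b = b₀ + X.w * b₁ + ∑ i, r i * c i :=
  exists_c_of hX hc hJ (acyclic_globGen hX hc hJo hJ (OX hX) J hJo hJ).2
    (dec_smul_exact hX hc hJo hJ (OX hX) J hJo hJ)

end Pool.Agent.H23ISO
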