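import Pool.Agent.H23ISO.Defs

/-!
# Acyclic subsheaves: chains and maps to `𝒪_C(-2)`
-/

set_option autoImplicit false

open LaurentPolynomial

universe u

namespace Pool.Agent.H23ISO

open Pool.Agent.DWC

variable {k : Type u} [Field k] {X : Nbhd k}

private theorem zero_of_reg {f g : k[T;T⁻¹]} {d : ℤ} (hd : d < 0) (hf : f ∈ Reg0 k)
    (hg : g ∈ RegInf k d) (h : f + g = 0) : f = 0 := by
  ext i
  by_cases hi : i < 0
  · rw [hf i hi]
    simp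
  · have h1 : g.coeff i = 0 := hg i (by omega)
    have h2 : f = -g := eq_neg_of_add_eq_zero_left h
    rw [h2]
    simp [h1]

private theorem acyclic_step (E : FSh X) (F G : Submodule X.B E.V) (hle : G ≤ F)
    (h : Acyclic E F) (hl : Layer E G F) : Acyclic E G := by
  obtain ⟨r, θ, -, -, hker, h0, h1⟩ := hl
  intro g hg
  obtain ⟨a, ha, c, hc, hac⟩ := h g (hle hg)
  rw [mem_sec₀] at ha
  rw [mem_sec₁] at hc
  have hsum : θ ⟨a, ha.1⟩ + θ ⟨c, hc.1⟩ = 0 := by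
    rw [← map_add, hker]
    change a + c ∈ G
    rw [← hac]
    exact hg
  have ha0 := (h0 (θ ⟨a, ha.1⟩)).1 ⟨⟨a, ha.1⟩, ha.2, rfl⟩
  have hc1 := (h1 (θ ⟨c, hc.1⟩)).1 ⟨⟨c, hc.1⟩, hc.2, rfl⟩
  have hza : θ ⟨a, ha.1⟩ = 0 := by
    funext i
    exact zero_of_reg (by norm_num) (ha0 i) (hc1 i) (congrFun hsum i)
  have hzc : θ ⟨c, hc.1⟩ = 0 := by
    rw [hza, zero_add] at hsum
    exact hsum
  exact ⟨a, mem_sec₀.2 ⟨(hker _).1 hza, ha.2⟩, c, mem_sec₁.2 ⟨(hker _).1 hzc, hc.2⟩, hac⟩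

/-- ISO-H1 -/
theorem acyclic_of_chain (E : FSh X) (F G : Submodule X.B E.V) (h : Acyclic E F)
    (hc : Chain E F G) : Acyclic E G := by
  obtain ⟨L, P, h0, hL, hP⟩ := hc
  have key : ∀ j ≤ L, Acyclic E (P j) → Acyclic E (P 0) := by
    intro j
    induction j with
    | zero => exact fun _ h => h
    | succ j ih =>
      intro hj hA
      obtain ⟨h1, h2⟩ := hP j hj
      exact ih (Nat.le_of_succ_le hj) (acyclic_step E _ _ h1 hA h2)
  rw [← h0]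
  refine key L le_rfl ?_
  rw [hL]
  exact h

private theorem coeff_T_mul' (f : k[T;T⁻¹]) (a b : ℤ) :
    (T a * f).coeff b = f.coeff (b - a) := by
  rw [T, AddMonoidAlgebra.coeff_single_mul_apply, one_mul]
  congr 1
  omega

private theorem res_zpow (X : Nbhd k) (n : ℤ) : X.res ((X.x ^ n : X.Bˣ) : X.B) = T n := by
  have h : ∀ m : ℕ, X.res ((X.x ^ m : X.Bˣ) : X.B) = T (m : ℤ) := by
    intro m
    rw [Units.val_pow_eq_pow_val, map_pow, X.res_x, T_pow, mul_one]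
  obtain ⟨m, rfl | rfl⟩ := n.eq_nat_or_neg
  · rw [zpow_natCast]
    exact h m
  · have h1 : X.res ((X.x ^ (-(m : ℤ)) : X.Bˣ) : X.B) * T (m : ℤ) = 1 := by
      rw [← h m, ← map_mul, ← Units.val_mul, ← zpow_natCast, ← zpow_add, neg_add_cancel,
        zpow_zero, Units.val_one, map_one]
    calc X.res ((X.x ^ (-(m : ℤ)) : X.Bˣ) : X.B)
        = X.res ((X.x ^ (-(m : ℤ)) : X.Bˣ) : X.B) * (T (m : ℤ) * T (-(m : ℤ))) := by
          rw [← T_add, add_neg_cancel, T_zero, mul_one]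
      _ = T (-(m : ℤ)) := by rw [← mul_assoc, h1, one_mul]

/-- ISO-H2 -/
theorem noHom_two (E : FSh X) (G : Submodule X.B E.V) (h : Acyclic E G) : NoHom E G (-2) := by
  intro φ hφ h0 h1
  have key : ∀ g : G, (φ g).coeff (-1) = 0 := by
    rintro ⟨g, hg⟩
    obtain ⟨a, ha, c, hc, hac⟩ := h g hg
    rw [mem_sec₀] at ha
    rw [mem_sec₁] at hc
    have hsum : φ ⟨g, hg⟩ = φ ⟨a, ha.1⟩ + φ ⟨c, hc.1⟩ := by
      rw [← map_add]
      exact congrArg φ (Subtype.ext hac)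
    have e0 : (φ ⟨a, ha.1⟩).coeff (-1) = 0 := h0 ⟨a, ha.1⟩ ha.2 (-1) (by norm_num)
    have e1 : (φ ⟨c, hc.1⟩).coeff (-1) = 0 := h1 ⟨c, hc.1⟩ hc.2 (-1) (by norm_num)
    rw [hsum]
    simp [e0, e1]
  ext g n
  have h2 := key (((X.x ^ (-1 - n) : X.Bˣ) : X.B) • g)
  rw [hφ, res_zpow, coeff_T_mul'] at h2
  have h3 : (-1 : ℤ) - (-1 - n) = n := by ring
  rw [h3] at h2
  rw [h2]
  simp

end Pool.Agent.H23ISO
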