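import Pool.Agent.H23ISO.Bundle

/-!
# Minors of the global sections of a globally generated subsheaf of a vector bundle
-/

set_option autoImplicit false

open LaurentPolynomial

universe u

namespace Pool.Agent.H23ISO

open Pool.Agent.DWC

section general

variable {k B V : Type*} [Field k] [CommRing B] [Algebra k B] [AddCommGroup V] [Module B V]

/-- the values of an alternating map at the elements of a finite set -/
noncomputable def minorSet {n : ℕ} [DecidableEq B] (D : V [⋀^Fin n]→ₗ[B] B) (s : Finset V) :
    Finset B :=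
  Finset.univ.image fun σ : Fin n → {x // x ∈ s} => D fun i => (σ i : V)

theorem mem_minorSet {n : ℕ} [DecidableEq B] {D : V [⋀^Fin n]→ₗ[B] B} {s : Finset V}
    {w : Fin n → V} (h : ∀ i, w i ∈ s) : D w ∈ minorSet D s :=
  Finset.mem_image.2 ⟨fun i => ⟨w i, h i⟩, Finset.mem_univ _, rfl⟩

theorem det_mem_span (R : Subalgebra k B) {n : ℕ} [DecidableEq B] (D : V [⋀^Fin n]→ₗ[B] B)
    (s : Finset V) (j : ℕ) : ∀ w : Fin n → V,
      (∀ i : Fin n, (i : ℕ) < j → w i ∈ Submodule.span R (s : Set V)) → (∀ i : Fin n, j ≤ (i : ℕ) → w i ∈ s) →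
      D w ∈ Submodule.span R (minorSet D s : Set B) := by
  induction j with
  | zero =>
    intro w _ h
    exact Submodule.subset_span (mem_minorSet fun i => h i (Nat.zero_le _))
  | succ j ih =>
    intro w h1 h2
    by_cases hj : j < n
    · have key : ∀ x ∈ Submodule.span R (s : Set V), D (Function.update w ⟨j, hj⟩ x) ∈
          Submodule.span R (minorSet D s : Set B) := by
        intro x hx
        induction hx using Submodule.span_induction with
        | mem x hx =>
          refine ih _ (fun i hi => ?_) (fun i hi => ?_)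
          · have hne : i ≠ ⟨j, hj⟩ := fun h => by
              rw [h] at hi
              exact lt_irrefl _ hi
            rw [Function.update_of_ne hne]
            exact h1 i (by omega)
          · by_cases hne : i = ⟨j, hj⟩
            · rw [hne, Function.update_self]
              exact hx
            · rw [Function.update_of_ne hne]
              refine h2 i ?_
              have : (i : ℕ) ≠ j := fun h => hne (Fin.ext h)
              omega
        | zero =>
          rw [AlternatingMap.map_update_zero]
          exact Submodule.zero_mem _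
        | add x y _ _ hx hy =>
          rw [AlternatingMap.map_update_add]
          exact Submodule.add_mem _ hx hy
        | smul r x _ hx =>
          have h3 : D (Function.update w ⟨j, hj⟩ (r • x)) =
              r • D (Function.update w ⟨j, hj⟩ x) := by
            show D (Function.update w ⟨j, hj⟩ ((r : B) • x)) =
              (r : B) • D (Function.update w ⟨j, hj⟩ x)
            rw [AlternatingMap.map_update_smul]
          rw [h3]
          exact Submodule.smul_mem _ _ hx
      have h3 := key (w ⟨j, hj⟩) (h1 ⟨j, hj⟩ (Nat.lt_succ_self j))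
      rwa [Function.update_eq_self] at h3
    · exact ih w (fun i hi => h1 i (by omega)) (fun i hi => h2 i (by omega))

theorem pow_smul_det_mem (R : Subalgebra k B) {n : ℕ} [DecidableEq B] (D : V [⋀^Fin n]→ₗ[B] B)
    (s : Finset V) (u : Fin n → V) (I : Ideal R)
    (hI : ∀ f ∈ I, ∀ i, (f : B) • u i ∈ Submodule.span R (s : Set V)) (j : ℕ) :
    ∀ b ∈ I ^ j, ∀ w : Fin n → V, (∀ i : Fin n, (i : ℕ) < j → w i = u i) →
      (∀ i : Fin n, j ≤ (i : ℕ) → w i ∈ Submodule.span R (s : Set V)) →
      (b : B) * D w ∈ Submodule.span R (minorSet D s : Set B) := by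
  induction j with
  | zero =>
    intro b _ w _ h
    have h1 := det_mem_span R D s n w (fun i _ => h i (Nat.zero_le _))
      (fun i hi => absurd i.2 (by omega))
    exact Submodule.smul_mem _ b h1
  | succ j ih =>
    intro b hb w h1 h2
    rw [pow_succ] at hb
    induction hb using Submodule.mul_induction_on' with
    | mem_mul_mem c hc f hf =>
      by_cases hj : j < n
      · have h3 : ((c * f : R) : B) * D w =
            (c : B) * D (Function.update w ⟨j, hj⟩ ((f : B) • w ⟨j, hj⟩)) := by
          rw [AlternatingMap.map_update_smul, Function.update_eq_self, smul_eq_mul,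
            Subalgebra.coe_mul, mul_assoc]
        rw [h3]
        refine ih c hc _ (fun i hi => ?_) (fun i hi => ?_)
        · have hne : i ≠ ⟨j, hj⟩ := fun h => by
            rw [h] at hi
            exact lt_irrefl _ hi
          rw [Function.update_of_ne hne]
          exact h1 i (by omega)
        · by_cases hne : i = ⟨j, hj⟩
          · rw [hne, Function.update_self, h1 ⟨j, hj⟩ (Nat.lt_succ_self j)]
            exact hI f hf _
          · rw [Function.update_of_ne hne]
            refine h2 i ?_
            have : (i : ℕ) ≠ j := fun h => hne (Fin.ext h)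
            omega
      · have h3 := ih c hc w (fun i hi => h1 i (by omega)) (fun i hi => h2 i (by omega))
        have h4 : ((c * f : R) : B) * D w = f • ((c : B) * D w) := by
          show ((c * f : R) : B) * D w = (f : B) * ((c : B) * D w)
          rw [Subalgebra.coe_mul]
          ring
        rw [h4]
        exact Submodule.smul_mem _ _ h3
    | add x _ y _ hx hy =>
      rw [Subalgebra.coe_add, add_mul]
      exact Submodule.add_mem _ hx hy

theorem det_mem_subalgebra (R : Subalgebra k B) {n : ℕ} (e : Module.Basis (Fin n) B V)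
    (w : Fin n → V) (h : ∀ i, w i ∈ Submodule.span R (Set.range e)) : e.det w ∈ R := by
  have h1 : ∀ x ∈ Submodule.span R (Set.range e), ∀ i, e.repr x i ∈ R := by
    intro x hx
    induction hx using Submodule.span_induction with
    | mem x hx =>
      obtain ⟨j, rfl⟩ := hx
      intro i
      rw [Module.Basis.repr_self, Finsupp.single_apply]
      split_ifs
      · exact R.one_mem
      · exact R.zero_mem
    | zero =>
      intro i
      rw [map_zero]
      exact R.zero_mem
    | add x y _ _ hx hy =>
      intro i
      rw [map_add]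
      exact R.add_mem (hx i) (hy i)
    | smul r x _ hx =>
      intro i
      have h2 : e.repr (r • x) = (r : B) • e.repr x := by
        rw [← map_smul]
        rfl
      rw [h2]
      exact R.mul_mem r.2 (hx i)
  rw [Module.Basis.det_apply, Matrix.det_apply]
  refine R.sum_mem fun σ _ => ?_
  rw [Units.smul_def]
  refine R.zsmul_mem (R.prod_mem fun i _ => ?_) _
  exact h1 _ (h _) _

end general

variable {k : Type u} [Field k] {X : Nbhd k}

/-- ISO-F, minors -/
theorem minors (hX : IsFormal X) {n : ℕ} {V : Type u} [AddCommGroup V] [Module X.B V]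
    (e a : Module.Basis (Fin n) X.B V) (G : Submodule X.B V)
    (hG : IsOpen' (FSh.ofBases hX e a) G) (hgg : GlobGen (FSh.ofBases hX e a) G) :
    ∃ t : Finset X.B, (∀ b ∈ t, b ∈ X.B₀ ∧ ∃ b' ∈ X.B₁, b = e.det a * b') ∧
      ∃ M : ℕ, (∀ b ∈ IC₀ X ^ M, (b : X.B) ∈ Submodule.span X.B₀ (t : Set X.B)) ∧
        (∀ b ∈ IC₁ X ^ M, e.det a * (b : X.B) ∈ Submodule.span X.B₁ (t : Set X.B)) := by
  classical
  obtain ⟨N, hN⟩ := hG
  obtain ⟨s, hs, hs0, hs1⟩ := hgg
  have hpow₀ : ∀ f ∈ IC₀ X ^ N, (f : X.B) ∈ IC X ^ N := fun f hf => by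
    have h1 : IC₀ X ^ N ≤ (IC X ^ N).comap (algebraMap X.B₀ X.B) := Ideal.le_comap_pow _ N
    exact h1 hf
  have hpow₁ : ∀ f ∈ IC₁ X ^ N, (f : X.B) ∈ IC X ^ N := fun f hf => by
    have h1 : IC₁ X ^ N ≤ (IC X ^ N).comap (algebraMap X.B₁ X.B) := Ideal.le_comap_pow _ N
    exact h1 hf
  refine ⟨minorSet e.det s, fun b hb => ?_, N * n, fun b hb => ?_, fun b hb => ?_⟩
  · obtain ⟨σ, -, rfl⟩ := Finset.mem_image.1 hb
    refine ⟨det_mem_subalgebra X.B₀ e _ fun i => (hs _ (σ i).2).1.2,
      a.det fun i => (σ i : V), det_mem_subalgebra X.B₁ a _ fun i => (hs _ (σ i).2).2.2, ?_⟩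
    have h1 := AlternatingMap.eq_smul_basis_det (e := a) e.det
    have h2 := congrArg (fun D : V [⋀^Fin n]→ₗ[X.B] X.B => D fun i => (σ i : V)) h1
    exact h2
  · rw [pow_mul] at hb
    have h1 := pow_smul_det_mem X.B₀ e.det s e (IC₀ X ^ N) (fun f hf i => hs0 ⟨hN ?_, ?_⟩) n b hb
      e (fun i _ => rfl) (fun i hi => absurd i.2 (by omega))
    · rwa [Module.Basis.det_self, mul_one] at h1
    · exact Submodule.smul_mem_smul (hpow₀ f hf) Submodule.mem_top
    · exact Submodule.smul_mem (Submodule.span X.B₀ (Set.range e)) f
        (Submodule.subset_span ⟨i, rfl⟩)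
  · rw [pow_mul] at hb
    have h1 := pow_smul_det_mem X.B₁ e.det s a (IC₁ X ^ N) (fun f hf i => hs1 ⟨hN ?_, ?_⟩) n b hb
      a (fun i _ => rfl) (fun i hi => absurd i.2 (by omega))
    · rwa [mul_comm] at h1
    · exact Submodule.smul_mem_smul (hpow₁ f hf) Submodule.mem_top
    · exact Submodule.smul_mem (Submodule.span X.B₁ (Set.range a)) f
        (Submodule.subset_span ⟨i, rfl⟩)

end Pool.Agent.H23ISO
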