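import Pool.Agent.H23ISO.Defs
import Pool.Agent.H79DW.DualV

/-!
# Package ISO-A: Serre duality on `C` for subsheaves of a coherent sheaf
-/

set_option autoImplicit false

open LaurentPolynomial

universe u

namespace Pool.Agent.H23ISO

open Pool.Agent.DWC

variable {k : Type u} [Field k] {X : Nbhd k}

/-- ISO-A -/
theorem nonneg_of_noHom (E : FSh X) (G : Submodule X.B E.V) (hG : IsOpen' E G)
    (h : NoHom E G (-1)) : NonNeg E G := by
  obtain ⟨n, hn⟩ := hG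
  have hle : (IC X ^ (n + 1)) • (⊤ : Submodule X.B E.V) ≤ IC X • G := by
    rw [pow_succ', Submodule.mul_smul]
    exact Submodule.smul_mono le_rfl hn
  have key := nonneg_of_hom_zeroV (X := X) (V₀ := E.V₀.toAddSubgroup) (V₁ := E.V₁.toAddSubgroup)
    (fun b hb v hv => E.V₀.smul_mem (⟨b, hb⟩ : X.B₀) hv)
    (fun b hb v hv => E.V₁.smul_mem (⟨b, hb⟩ : X.B₁) hv) (G := G)
    (fun g _ => by
      obtain ⟨m, c, hc, hm⟩ := E.loc₀ (n + 1) g
      exact ⟨m, c, hle hc, hm⟩)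
    (fun g _ => by
      obtain ⟨m, c, hc, hm⟩ := E.loc₁ (n + 1) g
      exact ⟨m, c, hle hc, hm⟩)
    (fun φ h1 h2 h3 => h φ h1 h2 h3)
  intro g hg
  obtain ⟨a, ha, ha0, c, hc, hc1, δ, hδ, e⟩ := key g hg
  exact ⟨a, ⟨ha, ha0⟩, c, ⟨hc, hc1⟩, δ, hδ, e⟩

end Pool.Agent.H23ISO
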