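import Pool.Agent.DWC.Defs

/-!
# Sheaves on a formal neighbourhood: definitions
-/

set_option autoImplicit false

open LaurentPolynomial

universe u

namespace Pool.Agent.H23ISO

open Pool.Agent.DWC

variable {k : Type u} [Field k]

/-- The ideal of `C` on `U₀ ∩ U₁`. -/
noncomputable def IC (X : Nbhd k) : Ideal X.B := RingHom.ker X.res.toRingHom

theorem mem_IC {X : Nbhd k} {b : X.B} : b ∈ IC X ↔ X.res b = 0 := by
  unfold IC
  rw [RingHom.mem_ker]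
  rfl

/-- The ideal of `C` on `U₀`. -/
noncomputable def IC₀ (X : Nbhd k) : Ideal X.B₀ := (IC X).comap (algebraMap X.B₀ X.B)

/-- The ideal of `C` on `U₁`. -/
noncomputable def IC₁ (X : Nbhd k) : Ideal X.B₁ := (IC X).comap (algebraMap X.B₁ X.B)

/-- `X` is the formal neighbourhood of `C`: `B₀` and `B₁` are noetherian rings, complete for the
topology defined by the ideal of `C`, `B` is separated, and modulo every power of the ideal of `C`
the ring `B` is the localisation of `B₀` at `x` and the localisation of `B₁` at `w`. -/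
structure IsFormal (X : Nbhd k) : Prop where
  noeth₀ : IsNoetherianRing X.B₀
  noeth₁ : IsNoetherianRing X.B₁
  complete₀ : IsAdicComplete (IC₀ X) X.B₀
  complete₁ : IsAdicComplete (IC₁ X) X.B₁
  sep : ∀ b : X.B, (∀ n : ℕ, b ∈ IC X ^ n) → b = 0
  loc₀ : ∀ (n : ℕ) (b : X.B), ∃ m : ℕ, ∃ c ∈ IC X ^ n, (X.x : X.B) ^ m * b + c ∈ X.B₀
  loc₁ : ∀ (n : ℕ) (b : X.B), ∃ m : ℕ, ∃ c ∈ IC X ^ n, (X.w : X.B) ^ m * b + c ∈ X.B₁

/-- A coherent sheaf on the formal neighbourhood `X`, without sections supported at the points `0`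
and `∞` of `C`: its sections `V` over `U₀ ∩ U₁`, `V₀` over `U₀` and `V₁` over `U₁`. -/
structure FSh (X : Nbhd k) where
  V : Type u
  [addCommGroup : AddCommGroup V]
  [module : Module X.B V]
  V₀ : Submodule X.B₀ V
  V₁ : Submodule X.B₁ V
  noeth₀ : IsNoetherian X.B₀ V₀
  noeth₁ : IsNoetherian X.B₁ V₁
  sep : ∀ v : V, (∀ n : ℕ, v ∈ (IC X ^ n) • (⊤ : Submodule X.B V)) → v = 0
  loc₀ : ∀ (n : ℕ) (v : V), ∃ m : ℕ, ∃ c ∈ (IC X ^ n) • (⊤ : Submodule X.B V),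
    (X.x : X.B) ^ m • v + c ∈ V₀
  loc₁ : ∀ (n : ℕ) (v : V), ∃ m : ℕ, ∃ c ∈ (IC X ^ n) • (⊤ : Submodule X.B V),
    (X.w : X.B) ^ m • v + c ∈ V₁

attribute [instance] FSh.addCommGroup FSh.module

variable {X : Nbhd k}

/-- The sections over `U₀` of a subsheaf. -/
def sec₀ (E : FSh X) (G : Submodule X.B E.V) : Submodule X.B₀ E.V :=
  G.restrictScalars X.B₀ ⊓ E.V₀

/-- The sections over `U₁` of a subsheaf. -/
def sec₁ (E : FSh X) (G : Submodule X.B E.V) : Submodule X.B₁ E.V :=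
  G.restrictScalars X.B₁ ⊓ E.V₁

theorem mem_sec₀ {E : FSh X} {G : Submodule X.B E.V} {v : E.V} :
    v ∈ sec₀ E G ↔ v ∈ G ∧ v ∈ E.V₀ := Iff.rfl

theorem mem_sec₁ {E : FSh X} {G : Submodule X.B E.V} {v : E.V} :
    v ∈ sec₁ E G ↔ v ∈ G ∧ v ∈ E.V₁ := Iff.rfl

/-- The subsheaf `G` contains a power of the ideal of `C`. -/
def IsOpen' (E : FSh X) (G : Submodule X.B E.V) : Prop :=
  ∃ n : ℕ, (IC X ^ n) • (⊤ : Submodule X.B E.V) ≤ G

/-- `P₂ / P₁` is isomorphic to a finite direct sum of copies of `𝒪_C(-1)`. -/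
def Layer (E : FSh X) (P₁ P₂ : Submodule X.B E.V) : Prop :=
  ∃ (r : ℕ) (θ : P₂ →+ (Fin r → k[T;T⁻¹])),
    (∀ (b : X.B) (p : P₂) (i : Fin r), θ (b • p) i = X.res b * θ p i) ∧
    Function.Surjective θ ∧ (∀ p : P₂, θ p = 0 ↔ (p : E.V) ∈ P₁) ∧
    (∀ f : Fin r → k[T;T⁻¹], (∃ p : P₂, (p : E.V) ∈ E.V₀ ∧ θ p = f) ↔ ∀ i, f i ∈ Reg0 k) ∧
    (∀ f : Fin r → k[T;T⁻¹], (∃ p : P₂, (p : E.V) ∈ E.V₁ ∧ θ p = f) ↔ ∀ i, f i ∈ RegInf k (-1))

/-- `F / G` is an iterated extension of `𝒪_C(-1)`. -/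
def Chain (E : FSh X) (F G : Submodule X.B E.V) : Prop :=
  ∃ (L : ℕ) (P : ℕ → Submodule X.B E.V), P 0 = G ∧ P L = F ∧
    ∀ j < L, P j ≤ P (j + 1) ∧ Layer E (P j) (P (j + 1))

/-- There is no nonzero map from `G` to `𝒪_C(d)`. -/
def NoHom (E : FSh X) (G : Submodule X.B E.V) (d : ℤ) : Prop :=
  ∀ φ : G →+ k[T;T⁻¹], (∀ (b : X.B) (g : G), φ (b • g) = X.res b * φ g) →
    (∀ g : G, (g : E.V) ∈ E.V₀ → φ g ∈ Reg0 k) →
    (∀ g : G, (g : E.V) ∈ E.V₁ → φ g ∈ RegInf k d) → φ = 0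

/-- The degrees of `G|_C` are nonnegative: `H¹(G|_C(-1)) = 0`. -/
def NonNeg (E : FSh X) (G : Submodule X.B E.V) : Prop :=
  ∀ g ∈ G, ∃ a ∈ sec₀ E G, ∃ c ∈ sec₁ E G, ∃ δ ∈ IC X • G, g = a + (X.w : X.B) • c + δ

/-- `H¹(X, G) = 0`. -/
def Acyclic (E : FSh X) (G : Submodule X.B E.V) : Prop :=
  ∀ g ∈ G, ∃ a ∈ sec₀ E G, ∃ c ∈ sec₁ E G, g = a + c

/-- `G` is generated by finitely many global sections. -/
def GlobGen (E : FSh X) (G : Submodule X.B E.V) : Prop :=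
  ∃ s : Finset E.V, (∀ g ∈ s, g ∈ sec₀ E G ∧ g ∈ sec₁ E G) ∧
    sec₀ E G ≤ Submodule.span X.B₀ (s : Set E.V) ∧ sec₁ E G ≤ Submodule.span X.B₁ (s : Set E.V)

/-- The Loewy lengths of the iterated extensions of `𝒪_C(-1)` are bounded. -/
def LoewyBounded' (X : Nbhd k) : Prop :=
  ∃ N : ℕ, ∀ E : Sh X, (∃ n : ℕ, Loewy E (-1) n) → Loewy E (-1) N

/-- The same as `NonNeg`, for a subsheaf whose sections over `U₀` and `U₁` are given. -/
def NonNeg3 {V : Type u} [AddCommGroup V] [Module X.B V] (F : Submodule X.B V)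
    (F₀ : Submodule X.B₀ V) (F₁ : Submodule X.B₁ V) : Prop :=
  ∀ f ∈ F, ∃ a ∈ F₀, ∃ c ∈ F₁, ∃ δ ∈ IC X • F, f = a + (X.w : X.B) • c + δ

/-- The sections over `U₀` of an ideal. -/
noncomputable def id₀ (J : Ideal X.B) : Ideal X.B₀ := J.comap (algebraMap X.B₀ X.B)

/-- The sections over `U₁` of an ideal. -/
noncomputable def id₁ (J : Ideal X.B) : Ideal X.B₁ := J.comap (algebraMap X.B₁ X.B)

theorem smul_def₀ {V : Type u} [AddCommGroup V] [Module X.B V] (b : X.B₀) (v : V) :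
    b • v = (b : X.B) • v := rfl

theorem smul_def₁ {V : Type u} [AddCommGroup V] [Module X.B V] (b : X.B₁) (v : V) :
    b • v = (b : X.B) • v := rfl

end Pool.Agent.H23ISO
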