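import Pool.Agent.H23ISO.Ample
import Pool.Agent.H23ISO.ExistsBundle
import Pool.Agent.H23ISO.ExistsC
import Pool.Agent.H60ISO.NoHom
import Pool.Agent.H23ISO.HomTwo
import Pool.Agent.H23ISO.Minors
import Pool.Agent.H23ISO.NonnegOfNoHom

/-!
# The contraction is an isomorphism outside `C`
-/

set_option autoImplicit false

open LaurentPolynomial

universe u

namespace Pool.Agent.H23ISO

open Pool.Agent.DWC Pool.Agent.H60ISO

variable {k : Type u} [Field k] {X : Nbhd k}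

/-- `𝒪(-1)` is generated outside `C` by finitely many global sections. -/
theorem neg (hX : IsFormal X) (hL : LoewyBounded' X) {J : Ideal X.B}
    (hc : Chain (OX hX) (IC X) J) (hJo : IsOpen' (OX hX) J) (hJ : NonNeg (OX hX) J) :
    ∃ t : Finset X.B, (∀ b ∈ t, b ∈ X.B₀ ∧ ∃ b' ∈ X.B₁, b = X.w * b') ∧
      ∃ M : ℕ, (∀ b ∈ IC₀ X ^ M, (b : X.B) ∈ Submodule.span X.B₀ (t : Set X.B)) ∧
        (∀ b ∈ IC₁ X ^ M, X.w * (b : X.B) ∈ Submodule.span X.B₁ (t : Set X.B)) := by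
  obtain ⟨v, c, hcc⟩ := exists_c hX hc hJo hJ
  have htop : IsOpen' (OX hX) ⊤ := ⟨0, le_top⟩
  have hn : NonNeg (OX hX) ⊤ := nonNeg_top hX
  obtain ⟨e, a, hdet, hacy⟩ := exists_bundle hX
    (acyclic_globGen hX hc hJo hJ (OX hX) ⊤ htop hn).1 c hcc
  set E := FSh.ofBases hX e a
  obtain ⟨G, hG1, hG2, hG3⟩ := exists_noHom hL E ⊤ ⟨0, le_top⟩ (fun G hG =>
    noHom_two E G (acyclic_of_chain E ⊤ G hacy hG))
  have := minors hX e a G hG2 (acyclic_globGen hX hc hJo hJ E G hG2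
    (nonneg_of_noHom E G hG2 hG3)).2
  rw [hdet] at this
  exact this

end Pool.Agent.H23ISO
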