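import Pool.Agent.H23ISO.Bundle
import Pool.Agent.H62DW.Concl

/-!
# Step 2 for the structure sheaf
-/

set_option autoImplicit false

open LaurentPolynomial

universe u

namespace Pool.Agent.H23ISO

open Pool.Agent.DWC

variable {k : Type u} [Field k] {X : Nbhd k}

/-- The ideal of `C` kills the layers. -/
theorem Layer.smul_mem {E : FSh X} {P₁ P₂ : Submodule X.B E.V} (h : Layer E P₁ P₂) {a : X.B}
    (ha : a ∈ IC X) {p : E.V} (hp : p ∈ P₂) : a • p ∈ P₁ := by
  obtain ⟨r, θ, hθ, -, hker, -⟩ := h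
  have h1 : θ (a • (⟨p, hp⟩ : P₂)) = 0 := by
    funext i
    rw [hθ, mem_IC.1 ha, zero_mul]
    rfl
  exact (hker _).1 h1

/-- A subsheaf with `F / G` an iterated extension is open if `F` is. -/
theorem Chain.isOpen {E : FSh X} {F G : Submodule X.B E.V} (h : Chain E F G)
    (hF : IsOpen' E F) : IsOpen' E G := by
  obtain ⟨L, P, hP0, hPL, hP⟩ := h
  obtain ⟨n, hn⟩ := hF
  have key : ∀ j ≤ L, IC X ^ (j + n) • (⊤ : Submodule X.B E.V) ≤ P (L - j) := by
    intro j
    induction j with
    | zero => intro _; rwa [zero_add, Nat.sub_zero, hPL]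
    | succ j ih =>
      intro hj
      have h1 : L - j = (L - (j + 1)) + 1 := by omega
      have h2 := ih (by omega)
      rw [h1] at h2
      rw [show j + 1 + n = (j + n) + 1 by omega, pow_succ', Submodule.mul_smul, Submodule.smul_le]
      intro a ha v hv
      exact (hP (L - (j + 1)) (by omega)).2.smul_mem ha (h2 hv)
  refine ⟨L + n, ?_⟩
  have h := key L le_rfl
  rwa [Nat.sub_self, hP0] at h

theorem Chain.le {E : FSh X} {F G : Submodule X.B E.V} (h : Chain E F G) : G ≤ F := by
  obtain ⟨L, P, hP0, hPL, hP⟩ := h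
  have key : ∀ j ≤ L, P 0 ≤ P j := by
    intro j
    induction j with
    | zero => intro _; exact le_rfl
    | succ j ih => intro hj; exact (ih (by omega)).trans (hP j (by omega)).1
  rw [← hP0, ← hPL]
  exact key L le_rfl

/-- Step 2 -/
theorem noHom_ideal (hX : IsFormal X) (hL : LoewyBounded' X) (G : Submodule X.B (OX hX).V)
    (hG : Chain (OX hX) (IC X) G) : NoHom (OX hX) G (-2) := by
  intro φ hφ h0 h1
  obtain ⟨N, hN⟩ := hL
  have hle : G ≤ IC X := hG.le
  have hop : IsOpen' (OX hX) (IC X) := ⟨1, by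
    rw [pow_one]
    refine Submodule.smul_le.2 fun a ha v _ => ?_
    exact (IC X).mul_mem_right v ha⟩
  obtain ⟨m, hm⟩ := hG.isOpen hop
  obtain ⟨L, P, hP0, hPL, hP⟩ := hG
  have hmem0 : ∀ b : X.B, b ∈ (OX hX).V₀ ↔ b ∈ X.B₀ := fun b => mem_V₀_OX hX b
  have hmem1 : ∀ b : X.B, b ∈ (OX hX).V₁ ↔ b ∈ X.B₁ := fun b => mem_V₁_OX hX b
  have hmG : ∀ c ∈ IC X ^ m, c ∈ G := fun c hc => by
    have h := Submodule.smul_mem_smul hc (Submodule.mem_top (x := (1 : X.B)) (R := X.B))
    have h2 : c • (1 : X.B) = c := by rw [smul_eq_mul, mul_one]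
    rw [h2] at h
    exact hm h
  let D : H62DW.Dat X :=
    { J := G
      J_le := hle
      c := L
      Q := P
      Q_zero := hP0
      Q_last := hPL
      Q_le := fun i hi => (hP i hi).1
      Q_layer := fun i hi => by
        obtain ⟨r, θ, h1, h2, h3, h4, h5⟩ := (hP i hi).2
        refine ⟨r, θ, h1, h2, h3, fun f => ?_, fun f => ?_⟩
        · rw [← h4]
          exact exists_congr fun p => and_congr_left fun _ => (hmem0 _).symm
        · rw [← h5]
          exact exists_congr fun p => and_congr_left fun _ => (hmem1 _).symm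
      loc₀ := fun b _ => by
        obtain ⟨n, c, hc, h⟩ := hX.loc₀ m b
        exact ⟨n, c, hmG c hc, h⟩
      loc₁ := fun b _ => by
        obtain ⟨n, c, hc, h⟩ := hX.loc₁ m b
        exact ⟨n, c, hmG c hc, h⟩
      lam := φ
      lam_smul := hφ
      lam₀ := fun j hj => h0 j ((hmem0 _).2 hj)
      lam₁ := fun j hj => h1 j ((hmem1 _).2 hj) }
  ext1 j
  exact H62DW.concl D N hN j

end Pool.Agent.H23ISO
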