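import Pool.Agent.H23ISO.Bundle

/-!
# The structure sheaf has nonnegative degree
-/

set_option autoImplicit false

open LaurentPolynomial

universe u

namespace Pool.Agent.H23ISO

open Pool.Agent.DWC

variable {k : Type u} [Field k] {X : Nbhd k}

theorem res_decomp (X : Nbhd k) (f : k[T;T⁻¹]) :
    ∃ a ∈ X.B₀, ∃ c ∈ X.B₁, f = X.res a + T (-1) * X.res c := by
  induction f using LaurentPolynomial.induction_on' with
  | add p q hp hq =>
    obtain ⟨a, ha, c, hc, h⟩ := hp
    obtain ⟨a', ha', c', hc', h'⟩ := hq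
    refine ⟨a + a', X.B₀.add_mem ha ha', c + c', X.B₁.add_mem hc hc', ?_⟩
    rw [h, h', map_add, map_add]
    ring
  | C_mul_T n s =>
    rcases n with n | n
    · refine ⟨algebraMap k X.B s * (X.x : X.B) ^ n,
        X.B₀.mul_mem (X.B₀.algebraMap_mem s) (X.B₀.pow_mem X.x_mem n), 0, X.B₁.zero_mem, ?_⟩
      rw [map_zero, mul_zero, add_zero, map_mul, AlgHom.commutes, map_pow, X.res_x, T_pow, mul_one]
      rfl
    · refine ⟨0, X.B₀.zero_mem, algebraMap k X.B s * (X.w : X.B) ^ n,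
        X.B₁.mul_mem (X.B₁.algebraMap_mem s) (X.B₁.pow_mem X.w_mem n), ?_⟩
      rw [map_zero, zero_add, map_mul, AlgHom.commutes, map_pow, X.res_w, T_pow, ← mul_assoc,
        mul_comm (T (-1)), mul_assoc, ← T_add]
      have h : Int.negSucc n = -1 + (n : ℤ) * -1 := by
        rw [Int.negSucc_eq]
        ring
      rw [h]
      rfl

/-- The structure sheaf has nonnegative degree on `C`. -/
theorem nonNeg_top (hX : IsFormal X) : NonNeg (OX hX) ⊤ := by
  intro g _
  obtain ⟨a, ha, c, hc, h⟩ := res_decomp X (X.res g)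
  refine ⟨a, (mem_sec₀_OX hX ⊤ a).2 ⟨Submodule.mem_top, ha⟩, c,
    (mem_sec₁_OX hX ⊤ c).2 ⟨Submodule.mem_top, hc⟩, g - a - X.w * c, ?_, ?_⟩
  · rw [smul_top_B, mem_IC, map_sub, map_sub, map_mul, X.res_w, h]
    ring
  · rw [smul_eq_mul]
    ring

end Pool.Agent.H23ISO
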