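import Pool.Agent.H23ISO.D5
import Pool.Agent.H23ISO.Top

/-!
# `𝒪(1)` is generated by global sections
-/

set_option autoImplicit false

open LaurentPolynomial

universe u

namespace Pool.Agent.H23ISO

open Pool.Agent.DWC

variable {k : Type u} [Field k] {X : Nbhd k}

private theorem amp_split (X : Nbhd k) (f : k[T;T⁻¹]) :
    ∃ a₀ ∈ X.B₀, ∃ a₁ ∈ X.B₁, X.res (a₀ + X.w * a₁) = f := by
  induction f using LaurentPolynomial.induction_on' with
  | add p q hp hq =>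
    obtain ⟨a₀, h0, a₁, h1, h⟩ := hp
    obtain ⟨b₀, g0, b₁, g1, g⟩ := hq
    refine ⟨a₀ + b₀, X.B₀.add_mem h0 g0, a₁ + b₁, X.B₁.add_mem h1 g1, ?_⟩
    rw [← h, ← g, ← map_add]
    congr 1
    ring
  | C_mul_T n a =>
    have hC : X.res (algebraMap k X.B a) = C a := by
      rw [AlgHom.commutes]
      rfl
    rcases le_or_gt 0 n with hn | hn
    · obtain ⟨m, rfl⟩ := Int.eq_ofNat_of_zero_le hn
      refine ⟨algebraMap k X.B a * X.x ^ m, X.B₀.mul_mem (X.B₀.algebraMap_mem a)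
        (X.B₀.pow_mem X.x_mem m), 0, X.B₁.zero_mem, ?_⟩
      rw [mul_zero, add_zero, map_mul, map_pow, X.res_x, hC, T_pow, mul_one]
    · obtain ⟨m, hm⟩ : ∃ m : ℕ, n = -((m : ℤ) + 1) := ⟨(-n - 1).toNat, by omega⟩
      refine ⟨0, X.B₀.zero_mem, algebraMap k X.B a * X.w ^ m, X.B₁.mul_mem
        (X.B₁.algebraMap_mem a) (X.B₁.pow_mem X.w_mem m), ?_⟩
      rw [zero_add, map_mul, map_mul, map_pow, X.res_w, hC, T_pow, mul_left_comm, ← T_add, hm]
      congr 2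
      ring

private theorem amp_split' (X : Nbhd k) (g : X.B) : ∃ a₀ ∈ X.B₀, ∃ a₁ ∈ X.B₁,
    ∃ δ ∈ IC X • (⊤ : Submodule X.B X.B), g = a₀ + (X.w : X.B) * a₁ + δ := by
  obtain ⟨a₀, h0, a₁, h1, h⟩ := amp_split X (X.res g)
  refine ⟨a₀, h0, a₁, h1, g - (a₀ + X.w * a₁), ?_, by ring⟩
  have hd : g - (a₀ + X.w * a₁) ∈ IC X := by
    rw [mem_IC, map_sub, h, sub_self]
  have h2 : (g - (a₀ + X.w * a₁)) • (1 : X.B) = g - (a₀ + X.w * a₁) := mul_one _
  rw [← h2]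
  exact Submodule.smul_mem_smul hd Submodule.mem_top

/-- The basis `w⁻¹` of `𝒪(1)` over `U₁`. -/
noncomputable def basisInv (X : Nbhd k) : Module.Basis (Fin 1) X.B X.B :=
  (Module.Basis.singleton (Fin 1) X.B).unitsSMul fun _ => X.w⁻¹

theorem basisInv_apply (i : Fin 1) : basisInv X i = ((X.w⁻¹ : X.Bˣ) : X.B) := by
  unfold basisInv
  rw [Module.Basis.unitsSMul_apply, Module.Basis.singleton_apply, Units.smul_def, smul_eq_mul,
    mul_one]

/-- ISO-L, `𝒪(1)` is generated by global sections -/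
theorem ample (hX : IsFormal X) {J : Ideal X.B} (hc : Chain (OX hX) (IC X) J)
    (hJo : IsOpen' (OX hX) J) (hJ : NonNeg (OX hX) J) :
    ∃ t : Finset X.B, (∀ b ∈ t, b ∈ X.B₀ ∧ X.w * b ∈ X.B₁) ∧
      1 ∈ Submodule.span X.B₀ (t : Set X.B) ∧
      ((X.w⁻¹ : X.Bˣ) : X.B) ∈ Submodule.span X.B₁ (t : Set X.B) := by
  have r0 : Set.range (Module.Basis.singleton (Fin 1) X.B) = {(1 : X.B)} := by
    ext y
    simp
  have r1 : Set.range (basisInv X) = {((X.w⁻¹ : X.Bˣ) : X.B)} := by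
    ext y
    simp [basisInv_apply, eq_comm]
  have m0 : ∀ y : X.B, y ∈ Submodule.span X.B₀ (Set.range (Module.Basis.singleton (Fin 1) X.B)) ↔
      y ∈ X.B₀ := by
    intro y
    rw [r0, Submodule.mem_span_singleton]
    constructor
    · rintro ⟨a, rfl⟩
      rw [smul_def₀, smul_eq_mul, mul_one]
      exact a.2
    · intro h
      exact ⟨⟨y, h⟩, mul_one y⟩
  have m1 : ∀ y : X.B, y ∈ Submodule.span X.B₁ (Set.range (basisInv X)) ↔ X.w * y ∈ X.B₁ := by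
    intro y
    rw [r1, Submodule.mem_span_singleton]
    constructor
    · rintro ⟨a, rfl⟩
      rw [smul_def₁, smul_eq_mul, mul_left_comm, Units.mul_inv, mul_one]
      exact a.2
    · intro h
      refine ⟨⟨X.w * y, h⟩, ?_⟩
      rw [smul_def₁, smul_eq_mul]
      change (X.w : X.B) * y * ((X.w⁻¹ : X.Bˣ) : X.B) = y
      rw [mul_right_comm, Units.mul_inv, one_mul]
  have hn : NonNeg (FSh.ofBases hX (Module.Basis.singleton (Fin 1) X.B) (basisInv X)) ⊤ := by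
    intro g _
    obtain ⟨a₀, h0, a₁, h1, δ, hδ, h⟩ := amp_split' X g
    exact ⟨a₀, ⟨trivial, (m0 a₀).mpr h0⟩, a₁, ⟨trivial, (m1 a₁).mpr (X.B₁.mul_mem X.w_mem h1)⟩,
      δ, hδ, h⟩
  obtain ⟨s, hs, hs0, hs1⟩ := (acyclic_globGen hX hc hJo hJ _ ⊤ ⟨0, le_top⟩ hn).2
  refine ⟨s, fun b hb => ⟨(m0 b).mp (hs b hb).1.2, (m1 b).mp (hs b hb).2.2⟩, ?_, ?_⟩
  · exact hs0 ⟨trivial, (m0 1).mpr X.B₀.one_mem⟩
  · exact hs1 ⟨trivial, (m1 _).mpr (by rw [Units.mul_inv]; exact X.B₁.one_mem)⟩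

end Pool.Agent.H23ISO
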