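import Pool.Agent.H23ISO.Defs

/-!
# Vector bundles on a formal neighbourhood
-/

set_option autoImplicit false

open LaurentPolynomial

universe u

namespace Pool.Agent.H23ISO

open Pool.Agent.DWC

variable {k : Type u} [Field k] {X : Nbhd k}

section Lemmas

variable {n : ℕ} {V : Type u} [AddCommGroup V] [Module X.B V]

/-- Elements of the `B₀`-span of a basis. -/
theorem mem_span_basis₀ (e : Module.Basis (Fin n) X.B V) (v : V) :
    v ∈ Submodule.span X.B₀ (Set.range e) ↔ ∀ i, e.repr v i ∈ X.B₀ := by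
  constructor
  · intro h
    induction h using Submodule.span_induction with
    | mem x hx =>
      obtain ⟨j, rfl⟩ := hx
      intro i
      rw [e.repr_self, Finsupp.single_apply]
      split_ifs
      · exact X.B₀.one_mem
      · exact X.B₀.zero_mem
    | zero =>
      intro i
      rw [map_zero]
      exact X.B₀.zero_mem
    | add x y _ _ hx hy =>
      intro i
      rw [map_add, Finsupp.add_apply]
      exact X.B₀.add_mem (hx i) (hy i)
    | smul b x _ hx =>
      intro i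
      rw [smul_def₀, map_smul, Finsupp.smul_apply, smul_eq_mul]
      exact X.B₀.mul_mem b.2 (hx i)
  · intro h
    rw [← e.sum_repr v]
    refine Submodule.sum_mem _ fun i _ => ?_
    exact Submodule.smul_mem _ (⟨e.repr v i, h i⟩ : X.B₀) (Submodule.subset_span ⟨i, rfl⟩)

/-- Elements of the `B₁`-span of a basis. -/
theorem mem_span_basis₁ (a : Module.Basis (Fin n) X.B V) (v : V) :
    v ∈ Submodule.span X.B₁ (Set.range a) ↔ ∀ i, a.repr v i ∈ X.B₁ := by
  constructor
  · intro h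
    induction h using Submodule.span_induction with
    | mem x hx =>
      obtain ⟨j, rfl⟩ := hx
      intro i
      rw [a.repr_self, Finsupp.single_apply]
      split_ifs
      · exact X.B₁.one_mem
      · exact X.B₁.zero_mem
    | zero =>
      intro i
      rw [map_zero]
      exact X.B₁.zero_mem
    | add x y _ _ hx hy =>
      intro i
      rw [map_add, Finsupp.add_apply]
      exact X.B₁.add_mem (hx i) (hy i)
    | smul b x _ hx =>
      intro i
      rw [smul_def₁, map_smul, Finsupp.smul_apply, smul_eq_mul]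
      exact X.B₁.mul_mem b.2 (hx i)
  · intro h
    rw [← a.sum_repr v]
    refine Submodule.sum_mem _ fun i _ => ?_
    exact Submodule.smul_mem _ (⟨a.repr v i, h i⟩ : X.B₁) (Submodule.subset_span ⟨i, rfl⟩)

/-- Elements of `K V` in the coordinates of a basis. -/
theorem mem_smul_top_basis (e : Module.Basis (Fin n) X.B V) (K : Ideal X.B) (v : V) :
    v ∈ K • (⊤ : Submodule X.B V) ↔ ∀ i, e.repr v i ∈ K := by
  constructor
  · intro h i
    refine Submodule.smul_induction_on h (fun b hb v _ => ?_) fun v w hv hw => ?_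
    · rw [map_smul, Finsupp.smul_apply, smul_eq_mul]
      exact K.mul_mem_right _ hb
    · rw [map_add, Finsupp.add_apply]
      exact K.add_mem hv hw
  · intro h
    rw [← e.sum_repr v]
    exact Submodule.sum_mem _ fun i _ => Submodule.smul_mem_smul (h i) Submodule.mem_top

theorem sep_basis (hX : IsFormal X) (e : Module.Basis (Fin n) X.B V) (v : V)
    (h : ∀ m : ℕ, v ∈ (IC X ^ m) • (⊤ : Submodule X.B V)) : v = 0 := by
  rw [← e.repr.map_eq_zero_iff]
  ext i
  exact hX.sep _ fun m => (mem_smul_top_basis e _ v).1 (h m) i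

theorem loc_basis₀ (hX : IsFormal X) (e : Module.Basis (Fin n) X.B V) (m : ℕ) (v : V) :
    ∃ ν : ℕ, ∃ c ∈ (IC X ^ m) • (⊤ : Submodule X.B V),
      (X.x : X.B) ^ ν • v + c ∈ Submodule.span X.B₀ (Set.range e) := by
  have h : ∀ i, ∃ ν : ℕ, ∃ c ∈ IC X ^ m, (X.x : X.B) ^ ν * e.repr v i + c ∈ X.B₀ := fun i =>
    hX.loc₀ m (e.repr v i)
  choose ν c hc hm using h
  refine ⟨Finset.univ.sup ν, ∑ i, ((X.x : X.B) ^ (Finset.univ.sup ν - ν i) * c i) • e i, ?_, ?_⟩
  · exact Submodule.sum_mem _ fun i _ =>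
      Submodule.smul_mem_smul (Ideal.mul_mem_left _ _ (hc i)) Submodule.mem_top
  · rw [mem_span_basis₀]
    intro i
    have h1 : e.repr ((X.x : X.B) ^ Finset.univ.sup ν • v +
        ∑ i, ((X.x : X.B) ^ (Finset.univ.sup ν - ν i) * c i) • e i) i =
        (X.x : X.B) ^ (Finset.univ.sup ν - ν i) * ((X.x : X.B) ^ ν i * e.repr v i + c i) := by
      rw [map_add, Finsupp.add_apply, map_smul, Finsupp.smul_apply, smul_eq_mul, e.repr_sum_self,
        mul_add, ← mul_assoc, ← pow_add,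
        Nat.sub_add_cancel (Finset.le_sup (f := ν) (Finset.mem_univ i))]
    rw [h1]
    exact X.B₀.mul_mem (X.B₀.pow_mem X.x_mem _) (hm i)

theorem loc_basis₁ (hX : IsFormal X) (a : Module.Basis (Fin n) X.B V) (m : ℕ) (v : V) :
    ∃ ν : ℕ, ∃ c ∈ (IC X ^ m) • (⊤ : Submodule X.B V),
      (X.w : X.B) ^ ν • v + c ∈ Submodule.span X.B₁ (Set.range a) := by
  have h : ∀ i, ∃ ν : ℕ, ∃ c ∈ IC X ^ m, (X.w : X.B) ^ ν * a.repr v i + c ∈ X.B₁ := fun i =>
    hX.loc₁ m (a.repr v i)
  choose ν c hc hm using h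
  refine ⟨Finset.univ.sup ν, ∑ i, ((X.w : X.B) ^ (Finset.univ.sup ν - ν i) * c i) • a i, ?_, ?_⟩
  · exact Submodule.sum_mem _ fun i _ =>
      Submodule.smul_mem_smul (Ideal.mul_mem_left _ _ (hc i)) Submodule.mem_top
  · rw [mem_span_basis₁]
    intro i
    have h1 : a.repr ((X.w : X.B) ^ Finset.univ.sup ν • v +
        ∑ i, ((X.w : X.B) ^ (Finset.univ.sup ν - ν i) * c i) • a i) i =
        (X.w : X.B) ^ (Finset.univ.sup ν - ν i) * ((X.w : X.B) ^ ν i * a.repr v i + c i) := by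
      rw [map_add, Finsupp.add_apply, map_smul, Finsupp.smul_apply, smul_eq_mul, a.repr_sum_self,
        mul_add, ← mul_assoc, ← pow_add,
        Nat.sub_add_cancel (Finset.le_sup (f := ν) (Finset.mem_univ i))]
    rw [h1]
    exact X.B₁.mul_mem (X.B₁.pow_mem X.w_mem _) (hm i)

end Lemmas

/-- The vector bundle with basis `e` over `U₀` and basis `a` over `U₁`. -/
@[reducible] noncomputable def FSh.ofBases (hX : IsFormal X) {n : ℕ} {V : Type u} [AddCommGroup V]
    [Module X.B V] (e a : Module.Basis (Fin n) X.B V) : FSh X where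
  V := V
  V₀ := Submodule.span X.B₀ (Set.range e)
  V₁ := Submodule.span X.B₁ (Set.range a)
  noeth₀ := by
    have := hX.noeth₀
    exact isNoetherian_span_of_finite X.B₀ (Set.finite_range e)
  noeth₁ := by
    have := hX.noeth₁
    exact isNoetherian_span_of_finite X.B₁ (Set.finite_range a)
  sep := sep_basis hX e
  loc₀ := loc_basis₀ hX e
  loc₁ := loc_basis₁ hX a

/-- Elements of the `B₀`-span of `1`. -/
theorem mem_span_one₀ (b : X.B) : b ∈ Submodule.span X.B₀ {(1 : X.B)} ↔ b ∈ X.B₀ := by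
  rw [Submodule.mem_span_singleton]
  constructor
  · rintro ⟨c, rfl⟩
    rw [smul_def₀, smul_eq_mul, mul_one]
    exact c.2
  · intro h
    exact ⟨⟨b, h⟩, by rw [smul_def₀, smul_eq_mul, mul_one]⟩

/-- Elements of the `B₁`-span of `1`. -/
theorem mem_span_one₁ (b : X.B) : b ∈ Submodule.span X.B₁ {(1 : X.B)} ↔ b ∈ X.B₁ := by
  rw [Submodule.mem_span_singleton]
  constructor
  · rintro ⟨c, rfl⟩
    rw [smul_def₁, smul_eq_mul, mul_one]
    exact c.2
  · intro h
    exact ⟨⟨b, h⟩, by rw [smul_def₁, smul_eq_mul, mul_one]⟩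

theorem smul_top_B (K : Ideal X.B) : K • (⊤ : Submodule X.B X.B) = K := by
  rw [smul_eq_mul, Ideal.mul_top]

/-- The structure sheaf. -/
@[reducible] noncomputable def OX (hX : IsFormal X) : FSh X where
  V := X.B
  V₀ := Submodule.span X.B₀ {(1 : X.B)}
  V₁ := Submodule.span X.B₁ {(1 : X.B)}
  noeth₀ := by
    have := hX.noeth₀
    exact isNoetherian_span_of_finite X.B₀ (Set.finite_singleton 1)
  noeth₁ := by
    have := hX.noeth₁
    exact isNoetherian_span_of_finite X.B₁ (Set.finite_singleton 1)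
  sep := fun v h => hX.sep v fun n => by
    have := h n
    rwa [smul_top_B] at this
  loc₀ := fun n v => by
    obtain ⟨m, c, hc, h⟩ := hX.loc₀ n v
    exact ⟨m, c, by rwa [smul_top_B], by rwa [mem_span_one₀]⟩
  loc₁ := fun n v => by
    obtain ⟨m, c, hc, h⟩ := hX.loc₁ n v
    exact ⟨m, c, by rwa [smul_top_B], by rwa [mem_span_one₁]⟩

section Mem

variable (hX : IsFormal X)

theorem mem_V₀_ofBases {n : ℕ} {V : Type u} [AddCommGroup V] [Module X.B V]
    (e a : Module.Basis (Fin n) X.B V) (v : V) :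
    v ∈ (FSh.ofBases hX e a).V₀ ↔ ∀ i, e.repr v i ∈ X.B₀ := mem_span_basis₀ e v

theorem mem_V₁_ofBases {n : ℕ} {V : Type u} [AddCommGroup V] [Module X.B V]
    (e a : Module.Basis (Fin n) X.B V) (v : V) :
    v ∈ (FSh.ofBases hX e a).V₁ ↔ ∀ i, a.repr v i ∈ X.B₁ := mem_span_basis₁ a v

theorem mem_V₀_OX (b : X.B) : b ∈ (OX hX).V₀ ↔ b ∈ X.B₀ := mem_span_one₀ b

theorem mem_V₁_OX (b : X.B) : b ∈ (OX hX).V₁ ↔ b ∈ X.B₁ := mem_span_one₁ b

theorem mem_sec₀_OX (J : Ideal X.B) (b : X.B) : b ∈ sec₀ (OX hX) J ↔ b ∈ J ∧ b ∈ X.B₀ := by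
  rw [mem_sec₀]
  exact and_congr Iff.rfl (mem_V₀_OX hX b)

theorem mem_sec₁_OX (J : Ideal X.B) (b : X.B) : b ∈ sec₁ (OX hX) J ↔ b ∈ J ∧ b ∈ X.B₁ := by
  rw [mem_sec₁]
  exact and_congr Iff.rfl (mem_V₁_OX hX b)

theorem mem_id₀ (J : Ideal X.B) (b : X.B₀) : b ∈ id₀ J ↔ (b : X.B) ∈ J := Iff.rfl

theorem mem_id₁ (J : Ideal X.B) (b : X.B₁) : b ∈ id₁ J ↔ (b : X.B) ∈ J := Iff.rfl

theorem isOpen'_OX (J : Ideal X.B) : IsOpen' (OX hX) J ↔ ∃ n : ℕ, IC X ^ n ≤ J := by
  constructor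
  · rintro ⟨n, hn⟩
    refine ⟨n, ?_⟩
    have h : (IC X ^ n) • (⊤ : Submodule X.B X.B) ≤ J := hn
    rwa [smul_top_B] at h
  · rintro ⟨n, hn⟩
    refine ⟨n, ?_⟩
    change (IC X ^ n) • (⊤ : Submodule X.B X.B) ≤ J
    rwa [smul_top_B]

theorem isOpen'_ofBases {n : ℕ} {V : Type u} [AddCommGroup V] [Module X.B V]
    (e a : Module.Basis (Fin n) X.B V) (G : Submodule X.B V) :
    IsOpen' (FSh.ofBases hX e a) G ↔
      ∃ m : ℕ, ∀ b ∈ IC X ^ m, ∀ v : V, b • v ∈ G := by
  constructor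
  · rintro ⟨m, hm⟩
    exact ⟨m, fun b hb v => hm (Submodule.smul_mem_smul hb Submodule.mem_top)⟩
  · rintro ⟨m, hm⟩
    exact ⟨m, Submodule.smul_le.2 fun b hb v _ => hm b hb v⟩

end Mem

end Pool.Agent.H23ISO
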