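import Pool.Agent.H23ISO.Bundle

/-!
# Sheaves nonnegative on `C`: decomposition, generation by sections, products
-/

set_option autoImplicit false

open LaurentPolynomial

universe u

namespace Pool.Agent.H23ISO

open Pool.Agent.DWC

variable {k : Type u} [Field k] {X : Nbhd k}

namespace D123

theorem T_mem_Reg0 {i : ℤ} (hi : 0 ≤ i) : (T i : k[T;T⁻¹]) ∈ Reg0 k := by
  intro j hj
  rw [show (T i : k[T;T⁻¹]) = C 1 * T i by simp, ← single_eq_C_mul_T]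
  rw [AddMonoidAlgebra.coeff_single, Finsupp.single_apply, if_neg (by omega)]

theorem T_mem_RegInf {i d : ℤ} (hi : i ≤ d) : (T i : k[T;T⁻¹]) ∈ RegInf k d := by
  intro j hj
  rw [show (T i : k[T;T⁻¹]) = C 1 * T i by simp, ← single_eq_C_mul_T]
  rw [AddMonoidAlgebra.coeff_single, Finsupp.single_apply, if_neg (by omega)]

theorem res_x_pow (n : ℕ) : X.res ((X.x : X.B) ^ n) = T n := by
  rw [map_pow, X.res_x, T_pow, mul_one]

theorem res_w_pow (n : ℕ) : X.res ((X.w : X.B) ^ n) = T (-n) := by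
  rw [map_pow, X.res_w, T_pow]; congr 1; ring

theorem res_surj : Function.Surjective X.res := by
  intro f
  induction f using LaurentPolynomial.induction_on' with
  | add p q hp hq =>
    obtain ⟨a, ha⟩ := hp
    obtain ⟨b, hb⟩ := hq
    exact ⟨a + b, by rw [map_add, ha, hb]⟩
  | C_mul_T n a =>
    obtain ⟨m, rfl | rfl⟩ := n.eq_nat_or_neg
    · refine ⟨algebraMap k X.B a * (X.x : X.B) ^ m, ?_⟩
      rw [map_mul, res_x_pow, AlgHom.commutes]
      rfl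
    · refine ⟨algebraMap k X.B a * (X.w : X.B) ^ m, ?_⟩
      rw [map_mul, res_w_pow, AlgHom.commutes]
      rfl

theorem mem_OX₀ {hX : IsFormal X} {b : X.B} : b ∈ (OX hX).V₀ ↔ b ∈ X.B₀ := by
  change b ∈ Submodule.span X.B₀ {(1 : X.B)} ↔ _
  rw [Submodule.mem_span_singleton]
  constructor
  · rintro ⟨a, rfl⟩
    rw [smul_def₀, smul_eq_mul, mul_one]
    exact a.2
  · intro h
    exact ⟨⟨b, h⟩, by rw [smul_def₀, smul_eq_mul, mul_one]⟩

theorem mem_OX₁ {hX : IsFormal X} {b : X.B} : b ∈ (OX hX).V₁ ↔ b ∈ X.B₁ := by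
  change b ∈ Submodule.span X.B₁ {(1 : X.B)} ↔ _
  rw [Submodule.mem_span_singleton]
  constructor
  · rintro ⟨a, rfl⟩
    rw [smul_def₁, smul_eq_mul, mul_one]
    exact a.2
  · intro h
    exact ⟨⟨b, h⟩, by rw [smul_def₁, smul_eq_mul, mul_one]⟩

/-- The data of a layer `𝒪_C(-1) ⊕ ⋯ ⊕ 𝒪_C(-1)`. -/
theorem layer_data (hX : IsFormal X) {P₁ P₂ : Ideal X.B} (h : Layer (OX hX) P₁ P₂) :
    ∃ (r : ℕ) (e e' : Fin r → X.B), (∀ i, e i ∈ P₂ ∧ e i ∈ X.B₀) ∧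
      (∀ i, e' i ∈ P₂ ∧ e' i ∈ X.B₁) ∧ (∀ i, (X.w : X.B) * e i - e' i ∈ P₁) ∧
      (∀ p ∈ P₂, ∃ b : Fin r → X.B, p - ∑ i, b i * e i ∈ P₁) ∧
      ∀ a ∈ IC X, ∀ p ∈ P₂, a * p ∈ P₁ := by
  have h' : ∃ (r : ℕ) (θ : P₂ →+ (Fin r → k[T;T⁻¹])),
      (∀ (b : X.B) (p : P₂) (i : Fin r), θ (b • p) i = X.res b * θ p i) ∧
      Function.Surjective θ ∧ (∀ p : P₂, θ p = 0 ↔ (p : X.B) ∈ P₁) ∧
      (∀ f : Fin r → k[T;T⁻¹],
        (∃ p : P₂, (p : X.B) ∈ (OX hX).V₀ ∧ θ p = f) ↔ ∀ i, f i ∈ Reg0 k) ∧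
      (∀ f : Fin r → k[T;T⁻¹],
        (∃ p : P₂, (p : X.B) ∈ (OX hX).V₁ ∧ θ p = f) ↔ ∀ i, f i ∈ RegInf k (-1)) := h
  obtain ⟨r, θ, hθ, -, hker, h0, h1⟩ := h'
  have he : ∀ i, ∃ p : P₂, (p : X.B) ∈ X.B₀ ∧ θ p = Pi.single i (1 : k[T;T⁻¹]) := by
    intro i
    obtain ⟨p, hp, hp2⟩ := (h0 (Pi.single i (1 : k[T;T⁻¹]))).2 fun j => by
      by_cases hj : j = i
      · subst hj
        rw [Pi.single_eq_same]
        exact T_mem_Reg0 (i := 0) le_rfl
      · rw [Pi.single_eq_of_ne hj]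
        intro l _
        simp
    exact ⟨p, mem_OX₀.1 hp, hp2⟩
  have he' : ∀ i, ∃ p : P₂, (p : X.B) ∈ X.B₁ ∧ θ p = Pi.single i (T (-1) : k[T;T⁻¹]) := by
    intro i
    obtain ⟨p, hp, hp2⟩ := (h1 (Pi.single i (T (-1) : k[T;T⁻¹]))).2 fun j => by
      by_cases hj : j = i
      · subst hj
        rw [Pi.single_eq_same]
        exact T_mem_RegInf le_rfl
      · rw [Pi.single_eq_of_ne hj]
        intro l _
        simp
    exact ⟨p, mem_OX₁.1 hp, hp2⟩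
  choose e he0 he1 using he
  choose e' he'0 he'1 using he'
  have hsm : ∀ (b : X.B) (p : P₂), θ (b • p) = fun i => X.res b * θ p i := fun b p => by
    funext i
    exact hθ b p i
  refine ⟨r, fun i => e i, fun i => e' i, fun i => ⟨(e i).2, he0 i⟩, fun i => ⟨(e' i).2, he'0 i⟩,
    fun i => ?_, fun p hp => ?_, fun a ha p hp => ?_⟩
  · have h2 : θ ((X.w : X.B) • e i - e' i) = 0 := by
      rw [map_sub, hsm, he1, he'1, X.res_w]
      funext j
      by_cases hj : j = i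
      · subst hj
        simp
      · simp [Pi.single_eq_of_ne hj]
    have h3 := (hker _).1 h2
    exact h3
  · choose b hb using fun i => res_surj (X := X) (θ ⟨p, hp⟩ i)
    refine ⟨b, ?_⟩
    have h2 : θ (⟨p, hp⟩ - ∑ i, b i • e i) = 0 := by
      rw [map_sub, map_sum]
      funext j
      simp only [Pi.sub_apply, Finset.sum_apply, Pi.zero_apply, hθ, he1, hb]
      rw [Finset.sum_eq_single j]
      · simp
      · intro i _ hij
        rw [Pi.single_eq_of_ne (Ne.symm hij), mul_zero]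
      · intro hj
        exact absurd (Finset.mem_univ j) hj
    have h3 := (hker _).1 h2
    simpa using h3
  · have h2 : θ (a • (⟨p, hp⟩ : P₂)) = 0 := by
      rw [hsm, mem_IC.1 ha]
      funext j
      simp
    exact (hker _).1 h2

variable {V : Type u} [AddCommGroup V] [Module X.B V]

/-- `f` is a sum of sections of `F₀`, of `F₁` and of `G`. -/
def Dec (F₀ : Submodule X.B₀ V) (F₁ : Submodule X.B₁ V) (G : Submodule X.B V) (f : V) : Prop :=
  ∃ a ∈ F₀, ∃ c ∈ F₁, ∃ δ ∈ G, f = a + c + δ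

section Dec

variable {F₀ : Submodule X.B₀ V} {F₁ : Submodule X.B₁ V} {G : Submodule X.B V} {f g : V}

theorem Dec.zero : Dec F₀ F₁ G (0 : V) :=
  ⟨0, F₀.zero_mem, 0, F₁.zero_mem, 0, G.zero_mem, by simp⟩

theorem Dec.add (hf : Dec F₀ F₁ G f) (hg : Dec F₀ F₁ G g) : Dec F₀ F₁ G (f + g) := by
  obtain ⟨a, ha, c, hc, δ, hδ, rfl⟩ := hf
  obtain ⟨a', ha', c', hc', δ', hδ', rfl⟩ := hg
  exact ⟨a + a', F₀.add_mem ha ha', c + c', F₁.add_mem hc hc', δ + δ', G.add_mem hδ hδ', by abel⟩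

theorem Dec.of₀ (hf : f ∈ F₀) : Dec F₀ F₁ G f :=
  ⟨f, hf, 0, F₁.zero_mem, 0, G.zero_mem, by simp⟩

theorem Dec.of₁ (hf : f ∈ F₁) : Dec F₀ F₁ G f :=
  ⟨0, F₀.zero_mem, f, hf, 0, G.zero_mem, by simp⟩

theorem Dec.ofG (hf : f ∈ G) : Dec F₀ F₁ G f :=
  ⟨0, F₀.zero_mem, 0, F₁.zero_mem, f, hf, by simp⟩

theorem Dec.sum {ι : Type*} {s : Finset ι} {f : ι → V} (h : ∀ i ∈ s, Dec F₀ F₁ G (f i)) :
    Dec F₀ F₁ G (∑ i ∈ s, f i) := by
  classical
  induction s using Finset.induction_on with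
  | empty => simpa using Dec.zero
  | insert a s ha ih =>
    rw [Finset.sum_insert ha]
    exact (h a (Finset.mem_insert_self a s)).add
      (ih fun i hi => h i (Finset.mem_insert_of_mem hi))

end Dec

end D123

open D123

/-- ISO-D1 -/
theorem dec_smul (hX : IsFormal X) {J : Ideal X.B} (hJ : Chain (OX hX) (IC X) J)
    {V : Type u} [AddCommGroup V] [Module X.B V] {F : Submodule X.B V} {F₀ : Submodule X.B₀ V}
    {F₁ : Submodule X.B₁ V} (h0 : ∀ f ∈ F₀, f ∈ F) (h1 : ∀ f ∈ F₁, f ∈ F) (hF : NonNeg3 F F₀ F₁) :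
    ∀ f ∈ IC X • F, ∃ a ∈ IC₀ X • F₀, ∃ c ∈ IC₁ X • F₁, ∃ δ ∈ J • F, f = a + c + δ := by
  have hJ' : ∃ (L : ℕ) (P : ℕ → Ideal X.B), P 0 = J ∧ P L = IC X ∧
    ∀ j < L, P j ≤ P (j + 1) ∧ Layer (OX hX) (P j) (P (j + 1)) := hJ
  obtain ⟨L, P, hP0, hPL, hP⟩ := hJ'
  have hle : ∀ j ≤ L, P j ≤ IC X := by
    intro j hj
    rw [← hPL]
    induction hj using Nat.decreasingInduction with
    | self => exact le_rfl
    | of_succ m hm ih => exact (hP m hm).1.trans ih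
  have key : ∀ j ≤ L, ∀ f ∈ P j • F, Dec (IC₀ X • F₀) (IC₁ X • F₁) (J • F) f := by
    intro j
    induction j with
    | zero =>
      intro _ f hf
      rw [hP0] at hf
      exact Dec.ofG hf
    | succ j ih =>
      intro hj f hf
      have ih' := ih (by omega)
      obtain ⟨r, e, e', he, he', hee, hgen, hI⟩ := layer_data hX (hP j (by omega)).2
      refine Submodule.smul_induction_on hf ?_ (fun a b ha hb => ha.add hb)
      intro p hp g hg
      obtain ⟨b, hb⟩ := hgen p hp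
      have h2 : p • g = (p - ∑ i, b i * e i) • g + ∑ i, e i • (b i • g) := by
        rw [sub_smul, Finset.sum_smul, sub_add_eq_add_sub, eq_sub_iff_add_eq]
        congr 1
        exact Finset.sum_congr rfl fun i _ => by rw [mul_comm, mul_smul]
      rw [h2]
      refine (ih' _ (Submodule.smul_mem_smul hb hg)).add (Dec.sum fun i _ => ?_)
      obtain ⟨a, ha, c, hc, δ, hδ, hsum⟩ := hF (b i • g) (F.smul_mem _ hg)
      rw [hsum]
      have h3 : e i • (a + (X.w : X.B) • c + δ) =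
          e i • a + e' i • c + ((X.w * e i - e' i) • c + e i • δ) := by module
      rw [h3]
      have h4 : e i • a ∈ IC₀ X • F₀ :=
        Submodule.smul_mem_smul (I := IC₀ X) (r := (⟨e i, (he i).2⟩ : X.B₀)) (hle _ hj (he i).1) ha
      have h5 : e' i • c ∈ IC₁ X • F₁ :=
        Submodule.smul_mem_smul (I := IC₁ X) (r := (⟨e' i, (he' i).2⟩ : X.B₁)) (hle _ hj (he' i).1)
          hc
      refine ((Dec.of₀ h4).add (Dec.of₁ h5)).add (ih' _ ?_)
      refine (P j • F).add_mem (Submodule.smul_mem_smul (hee i) (h1 c hc)) ?_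
      refine Submodule.smul_induction_on hδ ?_ ?_
      · intro a' ha' g' hg'
        have h4 : e i • (a' • g') = (a' * e i) • g' := by rw [smul_smul, mul_comm]
        rw [h4]
        exact Submodule.smul_mem_smul (hI a' ha' _ (he i).1) hg'
      · intro y z hy hz
        rw [smul_add]
        exact (P j • F).add_mem hy hz
  intro f hf
  rw [← hPL] at hf
  exact key L le_rfl f hf

namespace D123

theorem xw_mem : (X.x : X.B) * X.w - 1 ∈ IC X := by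
  rw [mem_IC, map_sub, map_mul, map_one, X.res_x, X.res_w, ← T_add]
  simp

variable {V : Type u} [AddCommGroup V] [Module X.B V] {F : Submodule X.B V}
  {F₀ : Submodule X.B₀ V} {F₁ : Submodule X.B₁ V}

theorem xw_smul {f : V} (hf : f ∈ F) : ((X.x : X.B) * X.w) • f - f ∈ IC X • F := by
  have h : ((X.x : X.B) * X.w) • f - f = ((X.x : X.B) * X.w - 1) • f := by module
  rw [h]
  exact Submodule.smul_mem_smul xw_mem hf

theorem smul_mem₀ {c : X.B} {v : V} (hc : c ∈ X.B₀) (hv : v ∈ F₀) : c • v ∈ F₀ :=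
  F₀.smul_mem (⟨c, hc⟩ : X.B₀) hv

theorem smul_mem₁ {c : X.B} {v : V} (hc : c ∈ X.B₁) (hv : v ∈ F₁) : c • v ∈ F₁ :=
  F₁.smul_mem (⟨c, hc⟩ : X.B₁) hv

section

variable (h0 : ∀ f ∈ F₀, f ∈ F) (h1 : ∀ f ∈ F₁, f ∈ F) (hF : NonNeg3 F F₀ F₁)

include h0 h1 hF

/-- one step at infinity -/
theorem step₁ {c : V} (hc : c ∈ F₁) :
    ∃ p ∈ F₁, ∃ q ∈ F₀, p - q ∈ IC X • F ∧ ∃ a ∈ F₁, c = p + (X.w : X.B) • a := by
  obtain ⟨a₀, ha₀, a, ha, δ, hδ, h⟩ := hF c (h1 c hc)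
  refine ⟨c - (X.w : X.B) • a, F₁.sub_mem hc (smul_mem₁ X.w_mem ha), a₀, ha₀, ?_, a, ha, by abel⟩
  have h2 : c - (X.w : X.B) • a - a₀ = δ := by rw [h]; abel
  rw [h2]
  exact hδ

/-- one step at zero -/
theorem step₀ {c : V} (hc : c ∈ F₀) :
    ∃ p ∈ F₀, ∃ q ∈ F₁, p - q ∈ IC X • F ∧ ∃ a ∈ F₀, c = p + (X.x : X.B) • a := by
  obtain ⟨a₀, ha₀, a, ha, δ, hδ, h⟩ := hF (((X.x⁻¹ : X.Bˣ) : X.B) • c) (F.smul_mem _ (h0 c hc))
  refine ⟨c - (X.x : X.B) • a₀, F₀.sub_mem hc (smul_mem₀ X.x_mem ha₀), a, ha, ?_, a₀, ha₀,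
    by abel⟩
  have h2 : c = (X.x : X.B) • (((X.x⁻¹ : X.Bˣ) : X.B) • c) := by
    rw [smul_smul, Units.mul_inv, one_smul]
  rw [h2, h]
  have h3 : (X.x : X.B) • (a₀ + (X.w : X.B) • a + δ) - (X.x : X.B) • a₀ - a =
      (((X.x : X.B) * X.w) • a - a) + (X.x : X.B) • δ := by module
  rw [h3]
  exact (IC X • F).add_mem (xw_smul (h1 a ha)) ((IC X • F).smul_mem _ hδ)

/-- elements with `w ^ n v` regular at infinity modulo `I F` -/
theorem gen_aux₀ (n : ℕ) : ∀ v ∈ F, (∃ c ∈ F₁, (X.w : X.B) ^ n • v - c ∈ IC X • F) →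
    ∃ s ∈ Submodule.span X.B₀ {h | h ∈ F₀ ∧ ∃ h' ∈ F₁, h - h' ∈ IC X • F},
      ∃ c ∈ F₁, v - s - c ∈ IC X • F := by
  induction n with
  | zero =>
    rintro v hv ⟨c, hc, h⟩
    refine ⟨0, Submodule.zero_mem _, c, hc, ?_⟩
    simpa using h
  | succ n ih =>
    rintro v hv ⟨c, hc, h⟩
    obtain ⟨p, hp, q, hq, hpq, a, ha, hcp⟩ := step₁ h0 h1 hF hc
    have hqF : q ∈ F := h0 q hq
    have hv' : v - (X.x : X.B) ^ (n + 1) • q ∈ F := F.sub_mem hv (F.smul_mem _ hqF)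
    have hpow : ∀ m : ℕ, ((X.w : X.B) ^ m * X.x ^ m) • q - q ∈ IC X • F := by
      intro m
      induction m with
      | zero => simp
      | succ m ihm =>
        have h5 : ((X.w : X.B) ^ (m + 1) * X.x ^ (m + 1)) • q - q =
            ((X.w : X.B) ^ m * X.x ^ m) • (((X.x : X.B) * X.w) • q - q) +
              (((X.w : X.B) ^ m * X.x ^ m) • q - q) := by
          rw [smul_sub, smul_smul]
          have h51 : (X.w : X.B) ^ (m + 1) * X.x ^ (m + 1) =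
            (X.w : X.B) ^ m * X.x ^ m * ((X.x : X.B) * X.w) := by ring
          rw [h51]
          abel
        rw [h5]
        exact (IC X • F).add_mem ((IC X • F).smul_mem _ (xw_smul hqF)) ihm
    obtain ⟨s, hs, c', hc', h'⟩ := ih _ hv' ⟨a, ha, by
      have h6 : (X.w : X.B) • ((X.w : X.B) ^ n • (v - (X.x : X.B) ^ (n + 1) • q) - a) ∈
          IC X • F := by
        have h7 : (X.w : X.B) • ((X.w : X.B) ^ n • (v - (X.x : X.B) ^ (n + 1) • q) - a) =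
            ((X.w : X.B) ^ (n + 1) • v - c) + (p - q) -
              (((X.w : X.B) ^ (n + 1) * X.x ^ (n + 1)) • q - q) := by
          rw [hcp, pow_succ' (X.w : X.B) n]
          module
        rw [h7]
        exact (IC X • F).sub_mem ((IC X • F).add_mem h hpq) (hpow (n + 1))
      have h8 := (IC X • F).smul_mem ((X.w⁻¹ : X.Bˣ) : X.B) h6
      rwa [smul_smul, Units.inv_mul, one_smul] at h8⟩
    have hqG : q ∈ {h | h ∈ F₀ ∧ ∃ h' ∈ F₁, h - h' ∈ IC X • F} := ⟨hq, p, hp, by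
      have h9 : q - p = -(p - q) := by abel
      rw [h9]
      exact (IC X • F).neg_mem hpq⟩
    refine ⟨s + (X.x : X.B) ^ (n + 1) • q, Submodule.add_mem _ hs
      (smul_mem₀ (pow_mem X.x_mem _) (Submodule.subset_span hqG)), c', hc', ?_⟩
    have h9 : v - (s + (X.x : X.B) ^ (n + 1) • q) - c' =
      v - (X.x : X.B) ^ (n + 1) • q - s - c' := by abel
    rw [h9]
    exact h'

/-- elements with `x ^ n v` regular at zero modulo `I F` -/
theorem gen_aux₁ (n : ℕ) : ∀ v ∈ F, (∃ c ∈ F₀, (X.x : X.B) ^ n • v - c ∈ IC X • F) →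
    ∃ s ∈ Submodule.span X.B₁ {h | h ∈ F₁ ∧ ∃ h' ∈ F₀, h' - h ∈ IC X • F},
      ∃ c ∈ F₀, v - s - c ∈ IC X • F := by
  induction n with
  | zero =>
    rintro v hv ⟨c, hc, h⟩
    refine ⟨0, Submodule.zero_mem _, c, hc, ?_⟩
    simpa using h
  | succ n ih =>
    rintro v hv ⟨c, hc, h⟩
    obtain ⟨p, hp, q, hq, hpq, a, ha, hcp⟩ := step₀ h0 h1 hF hc
    have hqF : q ∈ F := h1 q hq
    have hv' : v - (X.w : X.B) ^ (n + 1) • q ∈ F := F.sub_mem hv (F.smul_mem _ hqF)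
    have hpow : ∀ m : ℕ, ((X.x : X.B) ^ m * X.w ^ m) • q - q ∈ IC X • F := by
      intro m
      induction m with
      | zero => simp
      | succ m ihm =>
        have h5 : ((X.x : X.B) ^ (m + 1) * X.w ^ (m + 1)) • q - q =
            ((X.x : X.B) ^ m * X.w ^ m) • (((X.x : X.B) * X.w) • q - q) +
              (((X.x : X.B) ^ m * X.w ^ m) • q - q) := by
          rw [smul_sub, smul_smul]
          have h51 : (X.x : X.B) ^ (m + 1) * X.w ^ (m + 1) =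
            (X.x : X.B) ^ m * X.w ^ m * ((X.x : X.B) * X.w) := by ring
          rw [h51]
          abel
        rw [h5]
        exact (IC X • F).add_mem ((IC X • F).smul_mem _ (xw_smul hqF)) ihm
    obtain ⟨s, hs, c', hc', h'⟩ := ih _ hv' ⟨a, ha, by
      have h6 : (X.x : X.B) • ((X.x : X.B) ^ n • (v - (X.w : X.B) ^ (n + 1) • q) - a) ∈
          IC X • F := by
        have h7 : (X.x : X.B) • ((X.x : X.B) ^ n • (v - (X.w : X.B) ^ (n + 1) • q) - a) =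
            ((X.x : X.B) ^ (n + 1) • v - c) + (p - q) -
              (((X.x : X.B) ^ (n + 1) * X.w ^ (n + 1)) • q - q) := by
          rw [hcp, pow_succ' (X.x : X.B) n]
          module
        rw [h7]
        exact (IC X • F).sub_mem ((IC X • F).add_mem h hpq) (hpow (n + 1))
      have h8 := (IC X • F).smul_mem ((X.x⁻¹ : X.Bˣ) : X.B) h6
      rwa [smul_smul, Units.inv_mul, one_smul] at h8⟩
    have hqG : q ∈ {h | h ∈ F₁ ∧ ∃ h' ∈ F₀, h' - h ∈ IC X • F} := ⟨hq, p, hp, hpq⟩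
    refine ⟨s + (X.w : X.B) ^ (n + 1) • q, Submodule.add_mem _ hs
      (smul_mem₁ (pow_mem X.w_mem _) (Submodule.subset_span hqG)), c', hc', ?_⟩
    have h9 : v - (s + (X.w : X.B) ^ (n + 1) • q) - c' =
      v - (X.w : X.B) ^ (n + 1) • q - s - c' := by abel
    rw [h9]
    exact h'

end

end D123

/-- ISO-D2, sections of `F|_C` generate `F₀` -/
theorem le_span_glob₀ {V : Type u} [AddCommGroup V] [Module X.B V] {F : Submodule X.B V}
    {F₀ : Submodule X.B₀ V} {F₁ : Submodule X.B₁ V} (h0 : ∀ f ∈ F₀, f ∈ F) (h1 : ∀ f ∈ F₁, f ∈ F)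
    (hF : NonNeg3 F F₀ F₁)
    (l₁ : ∀ f ∈ F, ∃ m : ℕ, ∃ δ ∈ IC X • F, (X.w : X.B) ^ m • f + δ ∈ F₁) :
    F₀ ≤ Submodule.span X.B₀ {h | h ∈ F₀ ∧ ∃ h' ∈ F₁, h - h' ∈ IC X • F} := by
  intro v hv
  obtain ⟨n, δ, hδ, hn⟩ := l₁ v (h0 v hv)
  obtain ⟨s, hs, c, hc, h⟩ := gen_aux₀ h0 h1 hF n v (h0 v hv) ⟨_, hn, by
    have h1 : (X.w : X.B) ^ n • v - ((X.w : X.B) ^ n • v + δ) = -δ := by abel
    rw [h1]
    exact (IC X • F).neg_mem hδ⟩
  have hs0 : s ∈ F₀ := (Submodule.span_le.2 (fun _ h => h.1) :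
    Submodule.span X.B₀ {h | h ∈ F₀ ∧ ∃ h' ∈ F₁, h - h' ∈ IC X • F} ≤ F₀) hs
  have h2 : v - s ∈ {h | h ∈ F₀ ∧ ∃ h' ∈ F₁, h - h' ∈ IC X • F} :=
    ⟨F₀.sub_mem hv hs0, c, hc, h⟩
  have h3 : v = (v - s) + s := by abel
  rw [h3]
  exact Submodule.add_mem _ (Submodule.subset_span h2) hs

/-- ISO-D2, sections of `F|_C` generate `F₁` -/
theorem le_span_glob₁ {V : Type u} [AddCommGroup V] [Module X.B V] {F : Submodule X.B V}
    {F₀ : Submodule X.B₀ V} {F₁ : Submodule X.B₁ V} (h0 : ∀ f ∈ F₀, f ∈ F) (h1 : ∀ f ∈ F₁, f ∈ F)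
    (hF : NonNeg3 F F₀ F₁)
    (l₀ : ∀ f ∈ F, ∃ m : ℕ, ∃ δ ∈ IC X • F, (X.x : X.B) ^ m • f + δ ∈ F₀) :
    F₁ ≤ Submodule.span X.B₁ {h | h ∈ F₁ ∧ ∃ h' ∈ F₀, h' - h ∈ IC X • F} := by
  intro v hv
  obtain ⟨n, δ, hδ, hn⟩ := l₀ v (h1 v hv)
  obtain ⟨s, hs, c, hc, h⟩ := gen_aux₁ h0 h1 hF n v (h1 v hv) ⟨_, hn, by
    have h1 : (X.x : X.B) ^ n • v - ((X.x : X.B) ^ n • v + δ) = -δ := by abel
    rw [h1]
    exact (IC X • F).neg_mem hδ⟩
  have hs0 : s ∈ F₁ := (Submodule.span_le.2 (fun _ h => h.1) :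
    Submodule.span X.B₁ {h | h ∈ F₁ ∧ ∃ h' ∈ F₀, h' - h ∈ IC X • F} ≤ F₁) hs
  have h2 : v - s ∈ {h | h ∈ F₁ ∧ ∃ h' ∈ F₀, h' - h ∈ IC X • F} :=
    ⟨F₁.sub_mem hv hs0, c, hc, by
      have h9 : c - (v - s) = -(v - s - c) := by abel
      rw [h9]
      exact (IC X • F).neg_mem h⟩
  have h3 : v = (v - s) + s := by abel
  rw [h3]
  exact Submodule.add_mem _ (Submodule.subset_span h2) hs

namespace D123

/-- The sections over `U₀` of an ideal, as a submodule of `B`. -/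
noncomputable def part₀ (J : Ideal X.B) : Submodule X.B₀ X.B where
  carrier := {b | b ∈ J ∧ b ∈ X.B₀}
  add_mem' := fun ha hb => ⟨J.add_mem ha.1 hb.1, X.B₀.add_mem ha.2 hb.2⟩
  zero_mem' := ⟨J.zero_mem, X.B₀.zero_mem⟩
  smul_mem' := fun c b hb => by
    refine ⟨?_, ?_⟩
    · rw [Algebra.smul_def]; exact J.mul_mem_left _ hb.1
    · rw [Algebra.smul_def]; exact X.B₀.mul_mem c.2 hb.2

/-- The sections over `U₁` of an ideal, as a submodule of `B`. -/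
noncomputable def part₁ (J : Ideal X.B) : Submodule X.B₁ X.B where
  carrier := {b | b ∈ J ∧ b ∈ X.B₁}
  add_mem' := fun ha hb => ⟨J.add_mem ha.1 hb.1, X.B₁.add_mem ha.2 hb.2⟩
  zero_mem' := ⟨J.zero_mem, X.B₁.zero_mem⟩
  smul_mem' := fun c b hb => by
    refine ⟨?_, ?_⟩
    · rw [Algebra.smul_def]; exact J.mul_mem_left _ hb.1
    · rw [Algebra.smul_def]; exact X.B₁.mul_mem c.2 hb.2

theorem loc₀_ideal (hX : IsFormal X) {J : Ideal X.B} {n : ℕ} (hn : IC X ^ n ≤ J) :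
    ∀ f ∈ J, ∃ m : ℕ, ∃ δ ∈ IC X • J, (X.x : X.B) ^ m • f + δ ∈ part₀ J := by
  intro f hf
  obtain ⟨m, c, hc, h⟩ := hX.loc₀ (n + 1) f
  have hc' : c ∈ IC X * J := by
    rw [pow_succ'] at hc
    exact Ideal.mul_mono_right hn hc
  exact ⟨m, c, hc', J.add_mem (J.mul_mem_left _ hf) (Ideal.mul_le_right hc'), h⟩

theorem loc₁_ideal (hX : IsFormal X) {J : Ideal X.B} {n : ℕ} (hn : IC X ^ n ≤ J) :
    ∀ f ∈ J, ∃ m : ℕ, ∃ δ ∈ IC X • J, (X.w : X.B) ^ m • f + δ ∈ part₁ J := by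
  intro f hf
  obtain ⟨m, c, hc, h⟩ := hX.loc₁ (n + 1) f
  have hc' : c ∈ IC X * J := by
    rw [pow_succ'] at hc
    exact Ideal.mul_mono_right hn hc
  exact ⟨m, c, hc', J.add_mem (J.mul_mem_left _ hf) (Ideal.mul_le_right hc'), h⟩

theorem nonNeg3_of {hX : IsFormal X} {J : Ideal X.B} (hJ : NonNeg (OX hX) J) :
    NonNeg3 J (part₀ J) (part₁ J) := by
  intro f hf
  obtain ⟨a, ha, c, hc, δ, hδ, h⟩ := hJ f hf
  exact ⟨a, ⟨ha.1, mem_OX₀.1 ha.2⟩, c, ⟨hc.1, mem_OX₁.1 hc.2⟩, δ, hδ, h⟩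

theorem ideal_le (hX : IsFormal X) {J : Ideal X.B} (hJo : IsOpen' (OX hX) J)
    (hJ : NonNeg (OX hX) J) :
    J ≤ Ideal.span {h | h ∈ part₀ J ∧ ∃ h' ∈ part₁ J, h - h' ∈ IC X • J} ⊔ IC X • J := by
  obtain ⟨n, hn⟩ := hJo
  have hn' : IC X ^ n ≤ J := by
    have h1 : IC X ^ n • (⊤ : Ideal X.B) ≤ J := hn
    rwa [smul_eq_mul, Ideal.mul_top] at h1
  have hgen := le_span_glob₀ (F₀ := part₀ J) (F₁ := part₁ J) (fun f hf => hf.1)
    (fun f hf => hf.1) (nonNeg3_of hJ) (loc₁_ideal hX hn')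
  intro v hv
  obtain ⟨m, δ, hδ, h⟩ := loc₀_ideal hX hn' v hv
  have h1 : (X.x : X.B) ^ m • v + δ ∈
      Ideal.span {h | h ∈ part₀ J ∧ ∃ h' ∈ part₁ J, h - h' ∈ IC X • J} := by
    refine Submodule.span_induction (p := fun y _ => y ∈
      Ideal.span {h | h ∈ part₀ J ∧ ∃ h' ∈ part₁ J, h - h' ∈ IC X • J}) ?_ ?_ ?_ ?_ (hgen h)
    · intro y hy; exact Ideal.subset_span hy
    · exact Ideal.zero_mem _
    · intro y z _ _ hy hz; exact Ideal.add_mem _ hy hz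
    · intro a y _ hy; exact Ideal.mul_mem_left _ (a : X.B) hy
  have h2 : (X.x : X.B) ^ m * v ∈
      Ideal.span {h | h ∈ part₀ J ∧ ∃ h' ∈ part₁ J, h - h' ∈ IC X • J} ⊔ IC X • J := by
    have h3 : (X.x : X.B) ^ m * v = ((X.x : X.B) ^ m • v + δ) + (-δ) := by
      rw [smul_eq_mul]; ring
    rw [h3]
    exact Ideal.add_mem _ (Ideal.mem_sup_left h1) (Ideal.mem_sup_right (Ideal.neg_mem_iff _ |>.2 hδ))
  have h3 := (Ideal.span {h | h ∈ part₀ J ∧ ∃ h' ∈ part₁ J, h - h' ∈ IC X • J} ⊔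
    IC X • J).mul_mem_left ((((X.x⁻¹) ^ m : X.Bˣ)) : X.B) h2
  rwa [← mul_assoc, ← Units.val_pow_eq_pow_val, ← Units.val_mul, ← mul_pow, inv_mul_cancel,
    one_pow, Units.val_one, one_mul] at h3

end D123

/-- ISO-D3, products -/
theorem nonNeg3_smul (hX : IsFormal X) {J : Ideal X.B} (hJo : IsOpen' (OX hX) J)
    (hJ : NonNeg (OX hX) J) {V : Type u} [AddCommGroup V] [Module X.B V] {F : Submodule X.B V}
    {F₀ : Submodule X.B₀ V} {F₁ : Submodule X.B₁ V} (h0 : ∀ f ∈ F₀, f ∈ F) (h1 : ∀ f ∈ F₁, f ∈ F)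
    (hF : NonNeg3 F F₀ F₁) : NonNeg3 (J • F) (id₀ J • F₀) (id₁ J • F₁) := by
  have hgen := ideal_le hX hJo hJ
  have hadd : ∀ f g : V,
      (∃ a ∈ id₀ J • F₀, ∃ c ∈ id₁ J • F₁, ∃ δ ∈ IC X • (J • F), f = a + (X.w : X.B) • c + δ) →
      (∃ a ∈ id₀ J • F₀, ∃ c ∈ id₁ J • F₁, ∃ δ ∈ IC X • (J • F), g = a + (X.w : X.B) • c + δ) →
      ∃ a ∈ id₀ J • F₀, ∃ c ∈ id₁ J • F₁, ∃ δ ∈ IC X • (J • F),
        f + g = a + (X.w : X.B) • c + δ := by
    rintro f g ⟨a, ha, c, hc, δ, hδ, rfl⟩ ⟨a', ha', c', hc', δ', hδ', rfl⟩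
    refine ⟨a + a', Submodule.add_mem _ ha ha', c + c', Submodule.add_mem _ hc hc', δ + δ',
      Submodule.add_mem _ hδ hδ', ?_⟩
    rw [smul_add]
    abel
  have hIJ : ∀ f ∈ IC X • (J • F),
      ∃ a ∈ id₀ J • F₀, ∃ c ∈ id₁ J • F₁, ∃ δ ∈ IC X • (J • F), f = a + (X.w : X.B) • c + δ :=
    fun f hf => ⟨0, Submodule.zero_mem _, 0, Submodule.zero_mem _, f, hf, by simp⟩
  intro f hf
  refine Submodule.smul_induction_on hf ?_ (fun a b ha hb => hadd a b ha hb)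
  intro h hh g hg
  obtain ⟨y, hy, z, hz, hyz⟩ := Submodule.mem_sup.1 (hgen hh)
  rw [← hyz, add_smul]
  refine hadd _ _ ?_ (hIJ _ ?_)
  · have key : ∀ g ∈ F,
        ∃ a ∈ id₀ J • F₀, ∃ c ∈ id₁ J • F₁, ∃ δ ∈ IC X • (J • F),
          y • g = a + (X.w : X.B) • c + δ := by
      refine Submodule.span_induction (p := fun y _ => ∀ g ∈ F,
        ∃ a ∈ id₀ J • F₀, ∃ c ∈ id₁ J • F₁, ∃ δ ∈ IC X • (J • F),
          y • g = a + (X.w : X.B) • c + δ) ?_ ?_ ?_ ?_ hy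
      · rintro h ⟨hh0, h', hh1, hhh⟩ g hg
        obtain ⟨a, ha, c, hc, δ, hδ, hsum⟩ := hF g hg
        refine ⟨h • a, Submodule.smul_mem_smul (I := id₀ J) (r := (⟨h, hh0.2⟩ : X.B₀)) hh0.1 ha,
          h' • c, Submodule.smul_mem_smul (I := id₁ J) (r := (⟨h', hh1.2⟩ : X.B₁)) hh1.1 hc,
          (X.w : X.B) • ((h - h') • c) + h • δ, ?_, by rw [hsum]; module⟩
        refine Submodule.add_mem _ (Submodule.smul_mem _ _ ?_) ?_
        · have h3 : (h - h') • c ∈ (IC X • J) • F := Submodule.smul_mem_smul hhh (h1 c hc)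
          rwa [Submodule.smul_assoc] at h3
        · refine Submodule.smul_induction_on hδ ?_ ?_
          · intro i hi j hj
            rw [smul_comm h i j]
            exact Submodule.smul_mem_smul hi (Submodule.smul_mem_smul hh0.1 hj)
          · intro i j hi hj
            rw [smul_add]
            exact Submodule.add_mem _ hi hj
      · intro g _
        exact ⟨0, Submodule.zero_mem _, 0, Submodule.zero_mem _, 0, Submodule.zero_mem _, by simp⟩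
      · intro a b _ _ ha hb g hg
        rw [add_smul]
        exact hadd _ _ (ha g hg) (hb g hg)
      · intro b a _ ha g hg
        rw [smul_eq_mul, mul_comm, mul_smul]
        exact ha (b • g) (F.smul_mem _ hg)
    exact key g hg
  · have h3 : z • g ∈ (IC X • J) • F := Submodule.smul_mem_smul hz hg
    rwa [Submodule.smul_assoc] at h3

end Pool.Agent.H23ISO
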