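import Pool.Agent.H23ISO.Bundle

/-!
# Telescoping: `I G = I₀ G₀ + I₁ G₁`
-/

set_option autoImplicit false

open LaurentPolynomial

universe u

namespace Pool.Agent.H23ISO

open Pool.Agent.DWC

/-- A convergent series in a complete ring. -/
theorem exists_sum_ring {A : Type*} [CommRing A] (I : Ideal A) [IsAdicComplete I A]
    (a : ℕ → A) (ha : ∀ n, a n ∈ I ^ (n + 1)) :
    ∃ L ∈ I, ∀ n, L - ∑ i ∈ Finset.range n, a i ∈ I ^ (n + 1) := by
  have hdiff : ∀ {p q : ℕ}, p ≤ q →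
      ∑ i ∈ Finset.range q, a i - ∑ i ∈ Finset.range p, a i ∈ I ^ (p + 1) := by
    intro p q hpq
    induction q, hpq using Nat.le_induction with
    | base => simp
    | succ q hpq ih =>
      rw [Finset.sum_range_succ, add_sub_right_comm]
      exact add_mem ih (Ideal.pow_le_pow_right (by omega) (ha q))
  obtain ⟨L, hL⟩ := IsPrecomplete.prec' (I := I) (M := A)
    (fun n => ∑ i ∈ Finset.range n, a i) (by
      intro p q hpq
      rw [SModEq.sub_mem]
      have h := Ideal.pow_le_pow_right (Nat.le_succ p) (hdiff hpq)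
      rw [← neg_sub]
      refine neg_mem ?_
      simpa using h)
  have key : ∀ n, L - ∑ i ∈ Finset.range n, a i ∈ I ^ (n + 1) := by
    intro n
    have h1 : L - ∑ i ∈ Finset.range (n + 1), a i ∈ I ^ (n + 1) := by
      have h := hL (n + 1)
      rw [SModEq.sub_mem] at h
      rw [← neg_sub]
      refine neg_mem ?_
      simpa using h
    have h3 := hdiff (Nat.le_succ n)
    have h4 := add_mem h1 h3
    have h5 : L - ∑ i ∈ Finset.range (n + 1), a i +
        (∑ i ∈ Finset.range (n + 1), a i - ∑ i ∈ Finset.range n, a i) =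
        L - ∑ i ∈ Finset.range n, a i := by ring
    rwa [Nat.succ_eq_add_one, h5] at h4
  refine ⟨L, ?_, key⟩
  simpa using key 0

/-- A convergent series in a finitely generated module over a complete ring. -/
theorem exists_sum_module {A V : Type*} [CommRing A] [AddCommGroup V] [Module A V] (I : Ideal A)
    [IsAdicComplete I A] (N : Submodule A V) (hN : N.FG) (a : ℕ → V)
    (ha : ∀ n, a n ∈ I ^ (n + 1) • N) :
    ∃ L ∈ I • N, ∀ n, L - ∑ i ∈ Finset.range n, a i ∈ I ^ (n + 1) • N := by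
  obtain ⟨p, g, rfl⟩ := Submodule.fg_iff_exists_fin_generating_family.1 hN
  have hex : ∀ n, ∃ b : Fin p → A, (∀ i, b i ∈ I ^ (n + 1)) ∧ ∑ i, b i • g i = a n := by
    intro n
    obtain ⟨c, hc, hsum⟩ := (Submodule.mem_ideal_smul_span_iff_exists_sum _ g _).1 (ha n)
    refine ⟨c, hc, ?_⟩
    rw [← hsum, Finsupp.sum_fintype]
    simp
  choose b hb hsum using hex
  have hlim : ∀ i, ∃ L ∈ I, ∀ n, L - ∑ j ∈ Finset.range n, b j i ∈ I ^ (n + 1) :=
    fun i => exists_sum_ring I (fun n => b n i) (fun n => hb n i)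
  choose L hL hLn using hlim
  have hg : ∀ i, g i ∈ Submodule.span A (Set.range g) := fun i =>
    Submodule.subset_span ⟨i, rfl⟩
  refine ⟨∑ i, L i • g i, Submodule.sum_mem _ fun i _ => Submodule.smul_mem_smul (hL i) (hg i),
    fun n => ?_⟩
  have h1 : ∑ i, L i • g i - ∑ j ∈ Finset.range n, a j =
      ∑ i, (L i - ∑ j ∈ Finset.range n, b j i) • g i := by
    simp_rw [sub_smul, Finset.sum_sub_distrib, Finset.sum_smul]
    rw [Finset.sum_comm]
    simp_rw [hsum]
  rw [h1]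
  exact Submodule.sum_mem _ fun i _ => Submodule.smul_mem_smul (hLn i n) (hg i)

variable {k : Type u} [Field k] {X : Nbhd k}

theorem coe_pow_mem₀ (n : ℕ) (b : X.B₀) (hb : b ∈ IC₀ X ^ n) : (b : X.B) ∈ IC X ^ n := by
  have h2 := Ideal.mem_map_of_mem (algebraMap X.B₀ X.B) hb
  rw [Ideal.map_pow] at h2
  exact Ideal.pow_right_mono (Ideal.map_comap_le) n h2

theorem coe_pow_mem₁ (n : ℕ) (b : X.B₁) (hb : b ∈ IC₁ X ^ n) : (b : X.B) ∈ IC X ^ n := by
  have h2 := Ideal.mem_map_of_mem (algebraMap X.B₁ X.B) hb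
  rw [Ideal.map_pow] at h2
  exact Ideal.pow_right_mono (Ideal.map_comap_le) n h2

theorem smul_sub_top₀ {V : Type u} [AddCommGroup V] [Module X.B V] (N : Submodule X.B₀ V) (n : ℕ)
    (x : V) (hx : x ∈ IC₀ X ^ n • N) : x ∈ (IC X ^ n) • (⊤ : Submodule X.B V) := by
  refine Submodule.smul_induction_on hx (fun b hb v _ => ?_) (fun _ _ h1 h2 => add_mem h1 h2)
  rw [smul_def₀]
  exact Submodule.smul_mem_smul (coe_pow_mem₀ n b hb) trivial

theorem smul_sub_top₁ {V : Type u} [AddCommGroup V] [Module X.B V] (N : Submodule X.B₁ V) (n : ℕ)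
    (x : V) (hx : x ∈ IC₁ X ^ n • N) : x ∈ (IC X ^ n) • (⊤ : Submodule X.B V) := by
  refine Submodule.smul_induction_on hx (fun b hb v _ => ?_) (fun _ _ h1 h2 => add_mem h1 h2)
  rw [smul_def₁]
  exact Submodule.smul_mem_smul (coe_pow_mem₁ n b hb) trivial

theorem sec₀_fg (E : FSh X) (G : Submodule X.B E.V) : (sec₀ E G).FG :=
  isNoetherian_submodule.1 E.noeth₀ _ inf_le_right

theorem sec₁_fg (E : FSh X) (G : Submodule X.B E.V) : (sec₁ E G).FG :=
  isNoetherian_submodule.1 E.noeth₁ _ inf_le_right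

/-- Telescoping, from the two approximate decompositions. -/
theorem dec_smul_exact_aux (hX : IsFormal X) {J : Ideal X.B} (hJI : J ≤ IC X)
    (E : FSh X) (G : Submodule X.B E.V)
    (H0 : ∀ f ∈ IC X • G, ∃ a ∈ IC₀ X • sec₀ E G, ∃ c ∈ IC₁ X • sec₁ E G, ∃ δ ∈ J • G,
      f = a + c + δ)
    (H : ∀ m : ℕ, ∀ f ∈ J ^ (m + 1) • G, ∃ a ∈ id₀ J ^ (m + 1) • sec₀ E G,
      ∃ c ∈ id₁ J ^ (m + 1) • sec₁ E G, ∃ δ ∈ J ^ (m + 2) • G, f = a + c + δ) :
    ∀ f ∈ IC X • G, ∃ a ∈ IC₀ X • sec₀ E G, ∃ c ∈ IC₁ X • sec₁ E G, f = a + c := by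
  intro f hf
  have hI₀ : id₀ J ≤ IC₀ X := Ideal.comap_mono hJI
  have hI₁ : id₁ J ≤ IC₁ X := Ideal.comap_mono hJI
  obtain ⟨a₀, ha₀, c₀, hc₀, δ, hδ, rfl⟩ := H0 f hf
  choose α hα γ hγ ρ hρ hsum using H
  let r : (n : ℕ) → {v : E.V // v ∈ J ^ (n + 1) • G} := fun n =>
    Nat.rec (motive := fun n => {v : E.V // v ∈ J ^ (n + 1) • G})
      ⟨δ, by
        have h0 : J ^ (0 + 1) • G = J • G := by rw [zero_add, pow_one]
        exact h0 ▸ hδ⟩
      (fun n c => ⟨ρ n c.1 c.2, hρ n c.1 c.2⟩) n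
  have hr0 : (r 0).1 = δ := rfl
  have hrs : ∀ n, (r n).1 = α n (r n).1 (r n).2 + γ n (r n).1 (r n).2 + (r (n + 1)).1 :=
    fun n => hsum n (r n).1 (r n).2
  have := hX.complete₀
  have := hX.complete₁
  obtain ⟨L₀, hL₀, hS₀⟩ := exists_sum_module (IC₀ X) (sec₀ E G) (sec₀_fg E G)
    (fun n => α n (r n).1 (r n).2)
    (fun n => Submodule.smul_mono_left (Ideal.pow_right_mono hI₀ _) (hα _ _ _))
  obtain ⟨L₁, hL₁, hS₁⟩ := exists_sum_module (IC₁ X) (sec₁ E G) (sec₁_fg E G)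
    (fun n => γ n (r n).1 (r n).2)
    (fun n => Submodule.smul_mono_left (Ideal.pow_right_mono hI₁ _) (hγ _ _ _))
  have htel : ∀ n, (r n).1 = δ - ∑ i ∈ Finset.range n, α i (r i).1 (r i).2 -
      ∑ i ∈ Finset.range n, γ i (r i).1 (r i).2 := by
    intro n
    induction n with
    | zero => simp [hr0]
    | succ n ih =>
      have h1 := hrs n
      rw [Finset.sum_range_succ, Finset.sum_range_succ]
      have h2 : (r (n + 1)).1 = (r n).1 - α n (r n).1 (r n).2 - γ n (r n).1 (r n).2 := by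
        rw [sub_sub, eq_sub_iff_add_eq, add_comm]
        exact h1.symm
      rw [h2]
      have h3 : ∀ u v a b c d : E.V, u = v - a - b → u - c - d = v - (a + c) - (b + d) := by
        intro u v a b c d h
        rw [h]; abel
      exact h3 _ _ _ _ _ _ ih
  have hz : δ - L₀ - L₁ = 0 := by
    apply E.sep
    intro n
    have h1 : (r n).1 ∈ (IC X ^ n) • (⊤ : Submodule X.B E.V) :=
      Submodule.smul_mono ((Ideal.pow_le_pow_right (Nat.le_succ n)).trans
        (Ideal.pow_right_mono hJI n)) le_top (r n).2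
    have h2 := smul_sub_top₀ (sec₀ E G) n _
      (Submodule.smul_mono_left (Ideal.pow_le_pow_right (Nat.le_succ n)) (hS₀ n))
    have h3 := smul_sub_top₁ (sec₁ E G) n _
      (Submodule.smul_mono_left (Ideal.pow_le_pow_right (Nat.le_succ n)) (hS₁ n))
    have h4 := sub_mem (sub_mem h1 h2) h3
    rw [htel n] at h4
    have h5 : ∀ d s t l m : E.V, d - s - t - (l - s) - (m - t) = d - l - m := by
      intro d s t l m; abel
    rwa [h5] at h4
  refine ⟨a₀ + L₀, add_mem ha₀ hL₀, c₀ + L₁, add_mem hc₀ hL₁, ?_⟩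
  rw [sub_sub, sub_eq_zero] at hz
  rw [hz]
  abel

end Pool.Agent.H23ISO
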