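import Pool.Agent.H23ISO.D4
import Pool.Agent.H23ISO.D123

/-!
# Telescoping: the statement ISO-D4
-/

set_option autoImplicit false

open LaurentPolynomial

universe u

namespace Pool.Agent.H23ISO

open Pool.Agent.DWC

variable {k : Type u} [Field k] {X : Nbhd k}

theorem chain_le {E : FSh X} {F G : Submodule X.B E.V} (hc : Chain E F G) : G ≤ F := by
  obtain ⟨L, P, hP0, hPL, hP⟩ := hc
  have h : ∀ j ≤ L, G ≤ P j := by
    intro j
    induction j with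
    | zero => intro _; exact hP0.ge
    | succ j ih => intro hj; exact (ih (by omega)).trans (hP j (by omega)).1
  exact hPL ▸ h L le_rfl

theorem sec₀_sub {E : FSh X} {G : Submodule X.B E.V} : ∀ f ∈ sec₀ E G, f ∈ G := fun _ h => h.1

theorem sec₁_sub {E : FSh X} {G : Submodule X.B E.V} : ∀ f ∈ sec₁ E G, f ∈ G := fun _ h => h.1

theorem smul_sub₀ {V : Type u} [AddCommGroup V] [Module X.B V] {J : Ideal X.B}
    {F : Submodule X.B V} {F₀ : Submodule X.B₀ V} (h0 : ∀ f ∈ F₀, f ∈ F) :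
    ∀ f ∈ id₀ J • F₀, f ∈ J • F := by
  intro f hf
  refine Submodule.smul_induction_on hf (fun b hb v hv => ?_) (fun _ _ h1 h2 => add_mem h1 h2)
  rw [smul_def₀]
  exact Submodule.smul_mem_smul hb (h0 v hv)

theorem smul_sub₁ {V : Type u} [AddCommGroup V] [Module X.B V] {J : Ideal X.B}
    {F : Submodule X.B V} {F₁ : Submodule X.B₁ V} (h1 : ∀ f ∈ F₁, f ∈ F) :
    ∀ f ∈ id₁ J • F₁, f ∈ J • F := by
  intro f hf
  refine Submodule.smul_induction_on hf (fun b hb v hv => ?_) (fun _ _ h1 h2 => add_mem h1 h2)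
  rw [smul_def₁]
  exact Submodule.smul_mem_smul hb (h1 v hv)

theorem pow_succ_smul {A V : Type*} [CommRing A] [AddCommGroup V] [Module A V] (I : Ideal A)
    (N : Submodule A V) (m : ℕ) : I ^ (m + 1) • N = I • (I ^ m • N) := by
  rw [pow_succ', ← smul_eq_mul, Submodule.smul_assoc]

theorem pow_zero_smul {A V : Type*} [CommRing A] [AddCommGroup V] [Module A V] (I : Ideal A)
    (N : Submodule A V) : I ^ 0 • N = N := by
  rw [pow_zero, Ideal.one_eq_top, Submodule.top_smul]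

theorem pow_smul_sub {V : Type u} [AddCommGroup V] [Module X.B V] {J : Ideal X.B}
    {F : Submodule X.B V} {F₀ : Submodule X.B₀ V} {F₁ : Submodule X.B₁ V}
    (h0 : ∀ f ∈ F₀, f ∈ F) (h1 : ∀ f ∈ F₁, f ∈ F) (m : ℕ) :
    (∀ f ∈ id₀ J ^ m • F₀, f ∈ J ^ m • F) ∧ ∀ f ∈ id₁ J ^ m • F₁, f ∈ J ^ m • F := by
  induction m with
  | zero =>
    rw [pow_zero_smul, pow_zero_smul, pow_zero_smul]
    exact ⟨h0, h1⟩
  | succ m ih =>
    rw [pow_succ_smul, pow_succ_smul, pow_succ_smul]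
    exact ⟨smul_sub₀ ih.1, smul_sub₁ ih.2⟩

/-- ISO-D3 for all powers -/
theorem nonNeg3_pow_smul (hX : IsFormal X) {J : Ideal X.B} (hJo : IsOpen' (OX hX) J)
    (hJ : NonNeg (OX hX) J) {V : Type u} [AddCommGroup V] [Module X.B V] {F : Submodule X.B V}
    {F₀ : Submodule X.B₀ V} {F₁ : Submodule X.B₁ V} (h0 : ∀ f ∈ F₀, f ∈ F) (h1 : ∀ f ∈ F₁, f ∈ F)
    (hF : NonNeg3 F F₀ F₁) (m : ℕ) :
    NonNeg3 (J ^ m • F) (id₀ J ^ m • F₀) (id₁ J ^ m • F₁) := by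
  induction m with
  | zero =>
    rw [pow_zero_smul, pow_zero_smul, pow_zero_smul]
    exact hF
  | succ m ih =>
    have h := pow_smul_sub (J := J) h0 h1 m
    rw [pow_succ_smul, pow_succ_smul, pow_succ_smul]
    exact nonNeg3_smul hX hJo hJ h.1 h.2 ih

/-- `J ^ m G ⊆ J₀ ^ m G₀ + J₁ ^ m G₁ + J ^ (m + 1) G` -/
theorem dec_pow (hX : IsFormal X) {J : Ideal X.B} (hc : Chain (OX hX) (IC X) J)
    (hJo : IsOpen' (OX hX) J) (hJ : NonNeg (OX hX) J) {V : Type u} [AddCommGroup V]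
    [Module X.B V] {F : Submodule X.B V} {F₀ : Submodule X.B₀ V} {F₁ : Submodule X.B₁ V}
    (h0 : ∀ f ∈ F₀, f ∈ F) (h1 : ∀ f ∈ F₁, f ∈ F) (hF : NonNeg3 F F₀ F₁) (m : ℕ) :
    ∀ f ∈ J ^ m • F, ∃ a ∈ id₀ J ^ m • F₀, ∃ c ∈ id₁ J ^ m • F₁, ∃ δ ∈ J ^ (m + 1) • F,
      f = a + c + δ := by
  intro f hf
  have h := pow_smul_sub (J := J) h0 h1 m
  have hN := nonNeg3_pow_smul hX hJo hJ h0 h1 hF m
  obtain ⟨a, ha, c, hc', δ, hδ, rfl⟩ := hN f hf
  obtain ⟨a', ha', c', hc'', δ', hδ', rfl⟩ := dec_smul hX hc h.1 h.2 hN δ hδ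
  refine ⟨a + a', add_mem ha (Submodule.smul_le_right ha'),
    (⟨X.w, X.w_mem⟩ : X.B₁) • c + c', add_mem (Submodule.smul_mem _ _ hc')
      (Submodule.smul_le_right hc''), δ', ?_, ?_⟩
  · rw [pow_succ_smul]
    exact hδ'
  · rw [smul_def₁]
    abel

/-- ISO-D4, telescoping -/
theorem dec_smul_exact (hX : IsFormal X) {J : Ideal X.B} (hc : Chain (OX hX) (IC X) J)
    (hJo : IsOpen' (OX hX) J) (hJ : NonNeg (OX hX) J) (E : FSh X) (G : Submodule X.B E.V)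
    (_hG : IsOpen' E G) (h : NonNeg E G) :
    ∀ f ∈ IC X • G, ∃ a ∈ IC₀ X • sec₀ E G, ∃ c ∈ IC₁ X • sec₁ E G, f = a + c := by
  have hN : NonNeg3 G (sec₀ E G) (sec₁ E G) := h
  refine dec_smul_exact_aux hX (chain_le hc) E G
    (dec_smul hX hc sec₀_sub sec₁_sub hN) (fun m => ?_)
  exact dec_pow hX hc hJo hJ sec₀_sub sec₁_sub hN (m + 1)

end Pool.Agent.H23ISO
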