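import Pool.Agent.H23ISO.D4Main

/-!
# Package ISO-D5: nonnegative sheaves are acyclic and globally generated
-/

set_option autoImplicit false

open LaurentPolynomial

universe u

namespace Pool.Agent.H23ISO

open Pool.Agent.DWC

variable {k : Type u} [Field k] {X : Nbhd k}

namespace D5

theorem IC₀_le_jacobson (hX : IsFormal X) : IC₀ X ≤ Ideal.jacobson ⊥ := by
  have := hX.complete₀
  exact IsAdicComplete.le_jacobson_bot (IC₀ X)

theorem IC₁_le_jacobson (hX : IsFormal X) : IC₁ X ≤ Ideal.jacobson ⊥ := by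
  have := hX.complete₁
  exact IsAdicComplete.le_jacobson_bot (IC₁ X)

theorem sec₀_fg (E : FSh X) (G : Submodule X.B E.V) : (sec₀ E G).FG := by
  have := E.noeth₀
  exact (isNoetherian_submodule.1 E.noeth₀) _ inf_le_right

theorem sec₁_fg (E : FSh X) (G : Submodule X.B E.V) : (sec₁ E G).FG := by
  have := E.noeth₁
  exact (isNoetherian_submodule.1 E.noeth₁) _ inf_le_right

theorem IC_smul_le {V : Type u} [AddCommGroup V] [Module X.B V] (G : Submodule X.B V) :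
    IC X • G ≤ G := Submodule.smul_le_right

theorem loc₀_of_open (E : FSh X) (G : Submodule X.B E.V) (hG : IsOpen' E G) :
    ∀ f ∈ G, ∃ m : ℕ, ∃ δ ∈ IC X • G, (X.x : X.B) ^ m • f + δ ∈ sec₀ E G := by
  intro f hf
  obtain ⟨n, hn⟩ := hG
  obtain ⟨m, c, hc, hmc⟩ := E.loc₀ (n + 1) f
  have hc' : c ∈ IC X • G := by
    rw [pow_succ', Submodule.mul_smul] at hc
    exact Submodule.smul_mono le_rfl hn hc
  exact ⟨m, c, hc', G.add_mem (G.smul_mem _ hf) (IC_smul_le G hc'), hmc⟩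

theorem loc₁_of_open (E : FSh X) (G : Submodule X.B E.V) (hG : IsOpen' E G) :
    ∀ f ∈ G, ∃ m : ℕ, ∃ δ ∈ IC X • G, (X.w : X.B) ^ m • f + δ ∈ sec₁ E G := by
  intro f hf
  obtain ⟨n, hn⟩ := hG
  obtain ⟨m, c, hc, hmc⟩ := E.loc₁ (n + 1) f
  have hc' : c ∈ IC X • G := by
    rw [pow_succ', Submodule.mul_smul] at hc
    exact Submodule.smul_mono le_rfl hn hc
  exact ⟨m, c, hc', G.add_mem (G.smul_mem _ hf) (IC_smul_le G hc'), hmc⟩

section

variable (E : FSh X) (G : Submodule X.B E.V)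

/-- A pair of sections of `G` over `U₀` and `U₁` which agree on `C` comes from a global section,
up to the ideal of `C`. -/
theorem lift_pair
    (hD : ∀ f ∈ IC X • G, ∃ a ∈ IC₀ X • sec₀ E G, ∃ c ∈ IC₁ X • sec₁ E G, f = a + c)
    {h h' : E.V} (hh : h ∈ sec₀ E G) (hh' : h' ∈ sec₁ E G) (hd : h - h' ∈ IC X • G) :
    ∃ g : E.V, (g ∈ sec₀ E G ∧ g ∈ sec₁ E G) ∧ h - g ∈ IC₀ X • sec₀ E G ∧
      h' - g ∈ IC₁ X • sec₁ E G := by
  obtain ⟨s, hs, t, ht, hst⟩ := hD _ hd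
  have hg : h - s = h' + t := by
    rw [sub_eq_iff_eq_add] at hst ⊢
    rw [hst]; abel
  refine ⟨h - s, ⟨Submodule.sub_mem _ hh (Submodule.smul_le_right hs), ?_⟩, ?_, ?_⟩
  · rw [hg]; exact Submodule.add_mem _ hh' (Submodule.smul_le_right ht)
  · rw [sub_sub_cancel]; exact hs
  · rw [hg, sub_add_cancel_left]; exact Submodule.neg_mem _ ht

/-- Acyclicity. -/
theorem acyclic_of_dec (h : NonNeg E G)
    (hD : ∀ f ∈ IC X • G, ∃ a ∈ IC₀ X • sec₀ E G, ∃ c ∈ IC₁ X • sec₁ E G, f = a + c) :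
    Acyclic E G := by
  intro g hg
  obtain ⟨a, ha, c, hc, δ, hδ, rfl⟩ := h g hg
  obtain ⟨s, hs, t, ht, rfl⟩ := hD δ hδ
  refine ⟨a + s, Submodule.add_mem _ ha (Submodule.smul_le_right hs),
    (⟨(X.w : X.B), X.w_mem⟩ : X.B₁) • c + t,
    Submodule.add_mem _ (Submodule.smul_mem _ _ hc) (Submodule.smul_le_right ht), ?_⟩
  rw [smul_def₁]
  abel

/-- Global generation. -/
theorem globGen_of_dec (hX : IsFormal X) (hG : IsOpen' E G) (h : NonNeg E G)
    (hD : ∀ f ∈ IC X • G, ∃ a ∈ IC₀ X • sec₀ E G, ∃ c ∈ IC₁ X • sec₁ E G, f = a + c) :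
    GlobGen E G := by
  classical
  have h₀ := le_span_glob₀ (F := G) (F₀ := sec₀ E G) (F₁ := sec₁ E G) (fun f hf => hf.1)
    (fun f hf => hf.1) h (loc₁_of_open E G hG)
  have h₁ := le_span_glob₁ (F := G) (F₀ := sec₀ E G) (F₁ := sec₁ E G) (fun f hf => hf.1)
    (fun f hf => hf.1) h (loc₀_of_open E G hG)
  set S : Set E.V := {g | g ∈ sec₀ E G ∧ g ∈ sec₁ E G} with hS
  have e₀ : sec₀ E G ≤ Submodule.span X.B₀ S := by
    refine Submodule.le_of_le_smul_of_le_jacobson_bot (sec₀_fg E G) (IC₀_le_jacobson hX)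
      (h₀.trans (Submodule.span_le.2 ?_))
    rintro h ⟨hh, h', hh', hd⟩
    obtain ⟨g, hg, hs, -⟩ := lift_pair E G hD hh hh' hd
    rw [show h = g + (h - g) by abel]
    exact Submodule.add_mem_sup (Submodule.subset_span hg) hs
  have e₁ : sec₁ E G ≤ Submodule.span X.B₁ S := by
    refine Submodule.le_of_le_smul_of_le_jacobson_bot (sec₁_fg E G) (IC₁_le_jacobson hX)
      (h₁.trans (Submodule.span_le.2 ?_))
    rintro h' ⟨hh', h, hh, hd⟩
    obtain ⟨g, hg, -, hs⟩ := lift_pair E G hD hh hh' hd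
    rw [show h' = g + (h' - g) by abel]
    exact Submodule.add_mem_sup (Submodule.subset_span hg) hs
  have f₀ : Submodule.span X.B₀ S ≤ sec₀ E G := Submodule.span_le.2 fun h hh => hh.1
  have f₁ : Submodule.span X.B₁ S ≤ sec₁ E G := Submodule.span_le.2 fun h hh => hh.2
  have hfg₀ := sec₀_fg E G
  have hfg₁ := sec₁_fg E G
  rw [le_antisymm e₀ f₀] at hfg₀
  rw [le_antisymm e₁ f₁] at hfg₁
  obtain ⟨s₀, hs₀, hs₀'⟩ := (Submodule.fg_span_iff_fg_span_finset_subset _).1 hfg₀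
  obtain ⟨s₁, hs₁, hs₁'⟩ := (Submodule.fg_span_iff_fg_span_finset_subset _).1 hfg₁
  refine ⟨s₀ ∪ s₁, ?_, ?_, ?_⟩
  · intro h hh
    rcases Finset.mem_union.1 hh with hh | hh
    · exact hs₀ hh
    · exact hs₁ hh
  · refine e₀.trans (hs₀'.le.trans (Submodule.span_mono ?_))
    rw [Finset.coe_union]
    exact Set.subset_union_left
  · refine e₁.trans (hs₁'.le.trans (Submodule.span_mono ?_))
    rw [Finset.coe_union]
    exact Set.subset_union_right

end

end D5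

/-- ISO-D5 -/
theorem acyclic_globGen (hX : IsFormal X) {J : Ideal X.B} (hc : Chain (OX hX) (IC X) J)
    (hJo : IsOpen' (OX hX) J) (hJ : NonNeg (OX hX) J) (E : FSh X) (G : Submodule X.B E.V)
    (hG : IsOpen' E G) (h : NonNeg E G) : Acyclic E G ∧ GlobGen E G :=
  ⟨D5.acyclic_of_dec E G h (dec_smul_exact hX hc hJo hJ E G hG h),
    D5.globGen_of_dec E G hX hG h (dec_smul_exact hX hc hJo hJ E G hG h)⟩

end Pool.Agent.H23ISO
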